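import Pool.Agent.H37.PP.Defs

/-!
PP Sv: the sieve in a residue class with three polynomials, uniformly in the interval (adapted from H37/PB/Sv).
-/

set_option autoImplicit false

namespace Pool.Agent.H37.PP

open Finset Polynomial Pool.Agent.H37.PPC Pool.Agent.H37.PPD Pool.Agent.H37.PB

theorem dvd_eval_congr (h : ℤ[X]) (l x y : ℤ) (hxy : l ∣ x - y) :
    l ∣ h.eval x ↔ l ∣ h.eval y := by
  have h1 : l ∣ h.eval x - h.eval y := hxy.trans (Polynomial.sub_dvd_eval_sub x y h)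
  constructor
  · intro h2
    have := dvd_sub h2 h1
    simpa using this
  · intro h2
    have := dvd_add h1 h2
    simpa using this

theorem card_cls (h : ℤ[X]) (l d : ℕ) (hl : l.Prime) (hd : ¬ l ∣ d) (a : ℤ) :
    ((range l).filter (fun r : ℕ => (l : ℤ) ∣ h.eval (a + d * r))).card = (rt h l).card := by
  have hl0 : (0 : ℤ) < l := by exact_mod_cast hl.pos
  set f : ℕ → ℕ := fun r => ((a + d * r) % l).toNat with hf
  have hfc : ∀ r : ℕ, ((f r : ℕ) : ℤ) = (a + d * r) % l := by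
    intro r
    rw [hf]
    exact Int.toNat_of_nonneg (Int.emod_nonneg _ hl0.ne')
  have hcong : ∀ r : ℕ, (l : ℤ) ∣ (a + d * r) - (f r : ℤ) := by
    intro r
    rw [hfc]
    exact Int.dvd_self_sub_emod
  have hmaps : Set.MapsTo f (range l : Set ℕ) (range l : Set ℕ) := by
    intro r _
    rw [mem_coe, mem_range]
    have h1 : ((f r : ℕ) : ℤ) < l := by
      rw [hfc]
      exact Int.emod_lt_of_pos _ hl0
    exact_mod_cast h1
  have hinj : Set.InjOn f (range l : Set ℕ) := by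
    intro r hr r' hr' he
    rw [mem_coe, mem_range] at hr hr'
    have h1 : (l : ℤ) ∣ d * ((r : ℤ) - r') := by
      have h2 := dvd_sub (hcong r) (hcong r')
      rw [he] at h2
      have h3 : (a + d * (r : ℤ) - (f r' : ℤ)) - (a + d * (r' : ℤ) - (f r' : ℤ)) = d * ((r : ℤ) - r') := by
        ring
      rwa [h3] at h2
    have h2 : (l : ℤ) ∣ (r : ℤ) - r' := by
      rcases (Nat.prime_iff_prime_int.mp hl).dvd_or_dvd h1 with h3 | h3
      · exact absurd (by exact_mod_cast h3) hd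
      · exact h3
    have h4 : |(r : ℤ) - r'| < l := by
      rw [abs_lt]
      constructor <;> omega
    have h5 := Int.eq_zero_of_abs_lt_dvd h2 h4
    omega
  have hsurj : Set.SurjOn f (range l : Set ℕ) (range l : Set ℕ) :=
    Finset.surjOn_of_injOn_of_card_le f hmaps hinj le_rfl
  have himg : ((range l).filter (fun r : ℕ => (l : ℤ) ∣ h.eval (a + d * r))).image f = rt h l := by
    ext r
    rw [rt, mem_image, mem_filter]
    constructor
    · rintro ⟨r0, h0, rfl⟩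
      rw [mem_filter] at h0
      refine ⟨by simpa using hmaps (mem_coe.2 h0.1), ?_⟩
      exact (dvd_eval_congr h l _ _ (hcong r0)).1 h0.2
    · rintro ⟨hr, hd'⟩
      obtain ⟨r0, h0, rfl⟩ := hsurj (mem_coe.2 hr)
      refine ⟨r0, ?_, rfl⟩
      rw [mem_filter]
      exact ⟨mem_coe.1 h0, (dvd_eval_congr h l _ _ (hcong r0)).2 hd'⟩
  rw [← himg, card_image_of_injOn]
  exact hinj.mono (by
    intro x hx
    rw [mem_coe, mem_filter] at hx
    exact mem_coe.2 hx.1)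

theorem sieve3 (κ : ℕ) : ∃ C : ℝ, 0 < C ∧ ∃ s : ℕ, 0 < s ∧ ∀ (B : ℕ) (h0 h1 h2 : ℤ[X]),
    Cop B h0 h1 → Cop B h0 h2 → Cop B h1 h2 →
    ∀ (Y y d : ℕ) (M c : ℤ), 2 ≤ y → 0 < d → d * y ^ s ≤ Y → ∀ Z0 Z1 Z2 : Finset ℕ,
    Z0 ⊆ pr 2 (y + 1) → Z1 ⊆ pr 2 (y + 1) → Z2 ⊆ pr 2 (y + 1) →
    (∀ l ∈ Z0 ∪ (Z1 ∪ Z2), B < l ∧ κ < l ∧ ¬ l ∣ d ∧
      (rt h0 l).card + ((rt h1 l).card + (rt h2 l).card) ≤ κ) →
    ∀ S : Finset ℤ, (∀ m ∈ S, M < m ∧ m ≤ M + Y ∧ (d : ℤ) ∣ m - c ∧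
      (∀ l ∈ Z0, ¬ (l : ℤ) ∣ h0.eval m) ∧ (∀ l ∈ Z1, ¬ (l : ℤ) ∣ h1.eval m) ∧
      (∀ l ∈ Z2, ¬ (l : ℤ) ∣ h2.eval m)) →
    (S.card : ℝ) ≤ C * (Y / d) * Real.exp (-(∑ l ∈ Z0, ((rt h0 l).card : ℝ) / l)
      - (∑ l ∈ Z1, ((rt h1 l).card : ℝ) / l) - ∑ l ∈ Z2, ((rt h2 l).card : ℝ) / l) := by
  classical
  obtain ⟨C, hC, s, hs, hsv⟩ := sieve κ
  refine ⟨2 * C, by positivity, s, hs, ?_⟩
  intro B h0 h1 h2 hc01 hc02 hc12 Y y d M c hy hd hY Z0 Z1 Z2 hZ0 hZ1 hZ2 hZ S hS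
  have hdZ : (0 : ℤ) < d := by exact_mod_cast hd
  set R0 : ℤ := (M - c) / d with hR0
  set a : ℤ := c + d * R0 with ha
  set p0 : ℕ → ℕ → Prop := fun l r => l ∈ Z0 ∧ (l : ℤ) ∣ h0.eval (a + d * (r : ℤ)) with hp0
  set p1 : ℕ → ℕ → Prop := fun l r => l ∈ Z1 ∧ (l : ℤ) ∣ h1.eval (a + d * (r : ℤ)) with hp1
  set p2 : ℕ → ℕ → Prop := fun l r => l ∈ Z2 ∧ (l : ℤ) ∣ h2.eval (a + d * (r : ℤ)) with hp2
  set Ω : ℕ → Finset ℕ := fun l => (range l).filter (fun r => p0 l r ∨ (p1 l r ∨ p2 l r)) with hΩ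
  have hpart : ∀ (Z : Finset ℕ) (h : ℤ[X]) (l : ℕ), l.Prime → (l ∈ Z → ¬ l ∣ d) →
      ((range l).filter (fun r : ℕ => l ∈ Z ∧ (l : ℤ) ∣ h.eval (a + d * (r : ℤ)))).card =
        if l ∈ Z then (rt h l).card else 0 := by
    intro Z h l hl hld
    split_ifs with hh
    · rw [← card_cls h l d hl (hld hh) a]
      congr 1
      ext r
      rw [mem_filter, mem_filter]
      simp [hh]
    · rw [card_eq_zero, filter_eq_empty_iff]
      rintro r _ ⟨h3, _⟩
      exact hh h3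
  have hcard : ∀ l : ℕ, l.Prime → (Ω l).card = (if l ∈ Z0 then (rt h0 l).card else 0) +
      ((if l ∈ Z1 then (rt h1 l).card else 0) + (if l ∈ Z2 then (rt h2 l).card else 0)) := by
    intro l hl
    have e0 : Ω l = (range l).filter (p0 l) ∪ ((range l).filter (p1 l) ∪ (range l).filter (p2 l)) := by
      rw [hΩ]
      show (range l).filter (fun r => p0 l r ∨ (p1 l r ∨ p2 l r)) = _
      rw [filter_or, filter_or]
    rw [e0, card_union_of_disjoint, card_union_of_disjoint]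
    · congr 1
      · exact hpart Z0 h0 l hl (fun h => (hZ l (mem_union_left _ h)).2.2.1)
      · congr 1
        · exact hpart Z1 h1 l hl (fun h => (hZ l (mem_union_right _ (mem_union_left _ h))).2.2.1)
        · exact hpart Z2 h2 l hl (fun h => (hZ l (mem_union_right _ (mem_union_right _ h))).2.2.1)
    · rw [disjoint_left]
      intro r hr hr'
      rw [mem_filter] at hr hr'
      exact hc12 l hl (hZ l (mem_union_right _ (mem_union_left _ hr.2.1))).1 _ hr.2.2 hr'.2.2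
    · rw [disjoint_left]
      intro r hr hr'
      rw [mem_union, mem_filter, mem_filter] at hr'
      rw [mem_filter] at hr
      have hlB := (hZ l (mem_union_left _ hr.2.1)).1
      rcases hr' with h | h
      · exact hc01 l hl hlB _ hr.2.2 h.2.2
      · exact hc02 l hl hlB _ hr.2.2 h.2.2
  have hΩ1 : ∀ l : ℕ, l.Prime → Ω l ⊆ range l ∧ (Ω l).card < l ∧ (Ω l).card ≤ κ := by
    intro l hl
    refine ⟨filter_subset _ _, ?_⟩
    by_cases hm : l ∈ Z0 ∪ (Z1 ∪ Z2)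
    · obtain ⟨_, k1, _, k3⟩ := hZ l hm
      have h3 : (Ω l).card ≤ κ := by
        rw [hcard l hl]
        refine le_trans (add_le_add ?_ (add_le_add ?_ ?_)) k3 <;> split_ifs <;> omega
      exact ⟨by omega, h3⟩
    · rw [mem_union, mem_union, not_or, not_or] at hm
      rw [hcard l hl, if_neg hm.1, if_neg hm.2.1, if_neg hm.2.2]
      exact ⟨hl.pos, Nat.zero_le _⟩
  -- the numbers of the progression
  set g : ℤ → ℕ := fun m => ((m - c) / d - R0).toNat with hg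
  have hgm : ∀ m ∈ S, 1 ≤ g m ∧ g m ≤ Y / d + 1 ∧ a + d * (g m : ℤ) = m := by
    intro m hm
    obtain ⟨m1, m2, ⟨t, ht⟩, _, _⟩ := hS m hm
    have e1 : (m - c) / d = t := by
      rw [ht]
      exact Int.mul_ediv_cancel_left t hdZ.ne'
    have e2 : d * R0 ≤ M - c := by
      rw [hR0]
      exact Int.mul_ediv_self_le hdZ.ne'
    have e3 : M - c < d * R0 + d := by
      have := Int.lt_mul_ediv_self_add (x := M - c) hdZ
      rw [← hR0] at this
      exact this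
    have h3 : 0 < d * (t - R0) := by
      have : (d : ℤ) * (t - R0) = d * t - d * R0 := by ring
      rw [this, ← ht]
      linarith
    have h4 : 0 < t - R0 := (mul_pos_iff_of_pos_left hdZ).1 h3
    have hgt : ((g m : ℕ) : ℤ) = t - R0 := by
      rw [hg]
      show (((m - c) / d - R0).toNat : ℤ) = t - R0
      rw [e1]
      exact Int.toNat_of_nonneg h4.le
    refine ⟨by omega, ?_, ?_⟩
    · have h5 : (d : ℤ) * (g m : ℤ) < Y + d := by
        rw [hgt]
        have : (d : ℤ) * (t - R0) = d * t - d * R0 := by ring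
        rw [this, ← ht]
        linarith
      have h6 : d * g m < Y + d := by exact_mod_cast h5
      have h7 : g m < (Y + d) / d + 1 := by
        rw [Nat.lt_succ_iff, Nat.le_div_iff_mul_le hd]
        rw [mul_comm]
        exact h6.le
      have h8 : (Y + d) / d = Y / d + 1 := Nat.add_div_right Y hd
      rw [h8] at h7
      omega
    · rw [hgt, ha]
      have : c + d * R0 + d * (t - R0) = c + d * t := by ring
      rw [this, ← ht]
      ring
  have hinj : Set.InjOn g (S : Set ℤ) := by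
    intro m hm m' hm' he
    have e1 := (hgm m hm).2.2
    have e2 := (hgm m' hm').2.2
    rw [← e1, ← e2, he]
  have hpow : 1 ≤ y ^ s := Nat.one_le_pow _ _ (by omega)
  have hYd : y ^ s ≤ Y / d := by
    rw [Nat.le_div_iff_mul_le hd, mul_comm]
    exact hY
  have hmain := hsv (Y / d + 1) y hy (by omega) Ω hΩ1 (S.image g) (by
    intro n hn
    obtain ⟨m, hm, rfl⟩ := mem_image.1 hn
    exact ⟨(hgm m hm).1, (hgm m hm).2.1⟩) (by
    intro n hn l hl hmem
    obtain ⟨m, hm, rfl⟩ := mem_image.1 hn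
    have em := (hgm m hm).2.2
    have hcg : (l : ℤ) ∣ (a + d * ((g m % l : ℕ) : ℤ)) - m := by
      have h3 : (l : ℤ) ∣ ((g m % l : ℕ) : ℤ) - (g m : ℤ) := by
        push_cast
        have := Int.dvd_self_sub_emod (x := (g m : ℤ)) (m := (l : ℤ))
        have h4 := (dvd_neg (a := (l : ℤ))).2 this
        simpa using h4
      have h4 : (a + d * ((g m % l : ℕ) : ℤ)) - m = d * (((g m % l : ℕ) : ℤ) - (g m : ℤ)) := by
        rw [mul_sub]
        linarith
      rw [h4]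
      exact h3.mul_left _
    rw [hΩ] at hmem
    obtain ⟨_, _, _, k0, k1, k2⟩ := hS m hm
    rcases (mem_filter.1 hmem).2 with ⟨q1, q2⟩ | ⟨q1, q2⟩ | ⟨q1, q2⟩
    · exact k0 l q1 ((dvd_eval_congr h0 l _ _ hcg).1 q2)
    · exact k1 l q1 ((dvd_eval_congr h1 l _ _ hcg).1 q2)
    · exact k2 l q1 ((dvd_eval_congr h2 l _ _ hcg).1 q2))
  rw [card_image_of_injOn hinj] at hmain
  have hsum : ∑ l ∈ pr 2 (y + 1), ((Ω l).card : ℝ) / l =
      (∑ l ∈ Z0, ((rt h0 l).card : ℝ) / l) + ((∑ l ∈ Z1, ((rt h1 l).card : ℝ) / l) +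
        ∑ l ∈ Z2, ((rt h2 l).card : ℝ) / l) := by
    have e1 : ∀ l ∈ pr 2 (y + 1), ((Ω l).card : ℝ) / l =
        (if l ∈ Z0 then ((rt h0 l).card : ℝ) / l else 0) +
        ((if l ∈ Z1 then ((rt h1 l).card : ℝ) / l else 0) +
          (if l ∈ Z2 then ((rt h2 l).card : ℝ) / l else 0)) := by
      intro l hl
      rw [hcard l (mem_pr.1 hl).2]
      push_cast
      split_ifs <;> simp [add_div]
    have e2 : ∀ (Z : Finset ℕ) (F : ℕ → ℝ), Z ⊆ pr 2 (y + 1) →
        ∑ l ∈ pr 2 (y + 1), (if l ∈ Z then F l else 0) = ∑ l ∈ Z, F l := by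
      intro Z F hZ'
      rw [← sum_filter]
      congr 1
      ext l
      rw [mem_filter]
      exact ⟨fun h => h.2, fun h => ⟨hZ' h, h⟩⟩
    rw [sum_congr rfl e1, sum_add_distrib, sum_add_distrib, e2 Z0 _ hZ0, e2 Z1 _ hZ1, e2 Z2 _ hZ2]
  rw [hsum] at hmain
  have hXle : (((Y / d + 1 : ℕ) : ℕ) : ℝ) ≤ 2 * ((Y : ℝ) / d) := by
    push_cast
    have e1 : ((Y / d : ℕ) : ℝ) ≤ (Y : ℝ) / d := Nat.cast_div_le
    have e2 : (1 : ℝ) ≤ (Y : ℝ) / d := by
      have : (1 : ℝ) ≤ ((Y / d : ℕ) : ℝ) := by exact_mod_cast hpow.trans hYd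
      linarith
    linarith
  obtain ⟨E, hE⟩ : ∃ E : ℝ, E = -((∑ l ∈ Z0, ((rt h0 l).card : ℝ) / l) + ((∑ l ∈ Z1, ((rt h1 l).card : ℝ) / l) +
        ∑ l ∈ Z2, ((rt h2 l).card : ℝ) / l)) := ⟨_, rfl⟩
  have hE' : -(∑ l ∈ Z0, ((rt h0 l).card : ℝ) / l) - (∑ l ∈ Z1, ((rt h1 l).card : ℝ) / l)
      - ∑ l ∈ Z2, ((rt h2 l).card : ℝ) / l = E := by
    rw [hE]
    ring
  rw [← hE] at hmain
  rw [hE']
  calc (S.card : ℝ) ≤ C * ((Y / d + 1 : ℕ) : ℝ) * Real.exp E := hmain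
    _ ≤ C * (2 * ((Y : ℝ) / d)) * Real.exp E := by
        apply mul_le_mul_of_nonneg_right _ (Real.exp_pos _).le
        exact mul_le_mul_of_nonneg_left hXle hC.le
    _ = 2 * C * (Y / d) * Real.exp E := by ring

end Pool.Agent.H37.PP
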