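import Pool.Agent.H37.PP.Sv
import Pool.Agent.H37.PB.Cl

/-!
PP Cl: the sieve for sets with prescribed residues, and with two prescribed primes (adapted from H37/PB/Cl).
-/

set_option autoImplicit false

namespace Pool.Agent.H37.PP

open Finset Polynomial Pool.Agent.H37.PPC Pool.Agent.H37.PPD Pool.Agent.H37.PB

/-- three polynomials, coprime modulo all `l > B`, with weights -/
structure Tr (h0 h1 h2 : ℤ[X]) (B D : ℕ) (C : ℝ) (w0 w1 w2 : ℕ → ℝ) : Prop where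
  c01 : Cop B h0 h1
  c02 : Cop B h0 h2
  c12 : Cop B h1 h2
  W0 : Wt h0 B D C w0
  W1 : Wt h1 B D C w1
  W2 : Wt h2 B D C w2
  hB : 3 * D ≤ B
  hB2 : 2 ≤ B

section

variable {h0 h1 h2 : ℤ[X]} {B D : ℕ} {C : ℝ} {w0 w1 w2 : ℕ → ℝ}

theorem res_count3 (T : Tr h0 h1 h2 B D C w0 w1 w2) :
    ∃ K : ℝ, 0 < K ∧ ∃ s : ℕ, 0 < s ∧ ∀ (Y y d : ℕ) (M : ℤ), 2 ≤ y → 0 < d → d * y ^ s ≤ Y →
    ∀ Z0 Z1 Z2 : Finset ℕ, Z0 ⊆ pr (B + 1) (y + 1) → Z1 ⊆ pr (B + 1) (y + 1) → Z2 ⊆ pr (B + 1) (y + 1) →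
    (∀ l ∈ Z0 ∪ (Z1 ∪ Z2), ¬ l ∣ d) → ∀ (R : Finset ℕ) (S : Finset ℤ),
    (∀ m ∈ S, M < m ∧ m ≤ M + Y ∧ (m % d).toNat ∈ R ∧ (∀ l ∈ Z0, ¬ (l : ℤ) ∣ h0.eval m) ∧
      (∀ l ∈ Z1, ¬ (l : ℤ) ∣ h1.eval m) ∧ (∀ l ∈ Z2, ¬ (l : ℤ) ∣ h2.eval m)) →
    (S.card : ℝ) ≤ K * R.card * (Y / d) * Real.exp (-(∑ l ∈ Z0, w0 l / l) - (∑ l ∈ Z1, w1 l / l)
      - ∑ l ∈ Z2, w2 l / l) := by
  classical
  obtain ⟨K, hK, s, hs, H⟩ := sieve3 (3 * D)
  refine ⟨K, hK, s, hs, ?_⟩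
  intro Y y d M hy hd hdY Z0 Z1 Z2 hZ0 hZ1 hZ2 hZd R S hS
  have hB := T.hB
  have hB2 := T.hB2
  have hsub : ∀ Z : Finset ℕ, Z ⊆ pr (B + 1) (y + 1) → Z ⊆ pr 2 (y + 1) := by
    intro Z hZ l hl
    have h := mem_pr.1 (hZ hl)
    exact mem_pr.2 ⟨⟨h.2.two_le, h.1.2⟩, h.2⟩
  have hws : ∀ (h : ℤ[X]) (w : ℕ → ℝ) (Z : Finset ℕ), Wt h B D C w → Z ⊆ pr (B + 1) (y + 1) →
      ∑ l ∈ Z, w l / l ≤ ∑ l ∈ Z, ((rt h l).card : ℝ) / l := by
    intro h w Z hw hZ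
    refine sum_le_sum fun l hl => ?_
    have h' := mem_pr.1 (hZ hl)
    exact div_le_div_of_nonneg_right (hw.lo l h'.2 (by omega)) (Nat.cast_nonneg _)
  have hexp : Real.exp (-(∑ l ∈ Z0, ((rt h0 l).card : ℝ) / l) - (∑ l ∈ Z1, ((rt h1 l).card : ℝ) / l)
      - ∑ l ∈ Z2, ((rt h2 l).card : ℝ) / l) ≤
      Real.exp (-(∑ l ∈ Z0, w0 l / l) - (∑ l ∈ Z1, w1 l / l) - ∑ l ∈ Z2, w2 l / l) := by
    apply Real.exp_le_exp.2
    have e0 := hws h0 w0 Z0 T.W0 hZ0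
    have e1 := hws h1 w1 Z1 T.W1 hZ1
    have e2 := hws h2 w2 Z2 T.W2 hZ2
    linarith
  obtain ⟨E, hE⟩ : ∃ E : ℝ, E = -(∑ l ∈ Z0, w0 l / l) - (∑ l ∈ Z1, w1 l / l) - ∑ l ∈ Z2, w2 l / l := ⟨_, rfl⟩
  rw [← hE] at hexp ⊢
  have hcls : ∀ c ∈ R, ((S.filter fun m : ℤ => (m % d).toNat = c).card : ℝ) ≤
      K * (Y / d) * Real.exp E := by
    intro c _
    have h := H B h0 h1 h2 T.c01 T.c02 T.c12 Y y d M c hy hd hdY Z0 Z1 Z2 (hsub _ hZ0) (hsub _ hZ1) (hsub _ hZ2) (by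
      intro l hl
      have h3 : l ∈ pr (B + 1) (y + 1) := by
        rcases mem_union.1 hl with h | h
        · exact hZ0 h
        rcases mem_union.1 h with h | h
        · exact hZ1 h
        · exact hZ2 h
      have h4 := mem_pr.1 h3
      refine ⟨by omega, by omega, hZd l hl, ?_⟩
      have a0 := T.W0.up l h4.2 (by omega)
      have a1 := T.W1.up l h4.2 (by omega)
      have a2 := T.W2.up l h4.2 (by omega)
      omega) (S.filter fun m : ℤ => (m % d).toNat = c) (by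
      intro m hm
      rw [mem_filter] at hm
      obtain ⟨a1, a2, a3, a4, a5, a6⟩ := hS m hm.1
      refine ⟨a1, a2, ?_, a4, a5, a6⟩
      have h5 : (0 : ℤ) ≤ m % d := Int.emod_nonneg m (by exact_mod_cast hd.ne')
      have h6 : (c : ℤ) = m % d := by
        rw [← hm.2, Int.toNat_of_nonneg h5]
      rw [h6]
      exact Int.dvd_self_sub_emod)
    refine h.trans ?_
    exact mul_le_mul_of_nonneg_left hexp (by positivity)
  have hcov : S ⊆ R.biUnion fun c => S.filter fun m : ℤ => (m % d).toNat = c := by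
    intro m hm
    rw [mem_biUnion]
    exact ⟨_, (hS m hm).2.2.1, mem_filter.2 ⟨hm, rfl⟩⟩
  have h3 : (S.card : ℝ) ≤ ∑ c ∈ R, ((S.filter fun m : ℤ => (m % d).toNat = c).card : ℝ) := by
    have := (card_le_card hcov).trans card_biUnion_le
    exact_mod_cast this
  refine h3.trans ((sum_le_sum hcls).trans (le_of_eq ?_))
  rw [sum_const, nsmul_eq_mul]
  ring

theorem sum_all {w : ℕ → ℝ} {h : ℤ[X]} (hw : Wt h B D C w) (hB2 : 2 ≤ B) {y : ℕ} (hy : 2 ≤ y) (hBy : B ≤ y) :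
    ll y - ll (B + 1) - C ≤ ∑ l ∈ pr (B + 1) (y + 1), w l / l := by
  have h3 := (abs_le.1 (hw.me (B + 1) (y + 1) (by omega) (by omega))).1
  have h4 : ll y ≤ ll (y + 1) := loglog_mono hy (by omega)
  linarith

theorem lose {w : ℕ → ℝ} (h0 : ∀ l, 0 ≤ w l) (hD : ∀ l, w l ≤ D) (Z : Finset ℕ) {p q : ℕ} (hp : p.Prime)
    (hq : q.Prime) : ∑ l ∈ Z, w l / l - 2 * D ≤ ∑ l ∈ Z \ {p, q}, w l / l := by
  have h3 : Z ⊆ (Z \ {p, q}) ∪ {p, q} := by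
    intro l hl
    rw [mem_union, mem_sdiff]
    by_cases h : l ∈ ({p, q} : Finset ℕ)
    · exact Or.inr h
    · exact Or.inl ⟨hl, h⟩
  have hn : ∀ l, 0 ≤ w l / l := fun l => div_nonneg (h0 l) (Nat.cast_nonneg _)
  have h4 := sum_le_sum_of_subset_of_nonneg h3 (f := fun l : ℕ => w l / l) (fun l _ _ => hn l)
  rw [sum_union sdiff_disjoint] at h4
  have h5 : ∑ l ∈ ({p, q} : Finset ℕ), w l / l ≤ 2 * D := by
    have h6 : ∀ l ∈ ({p, q} : Finset ℕ), w l / l ≤ D := by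
      intro l hl
      have hl1 : 1 ≤ l := by
        rw [mem_insert, mem_singleton] at hl
        rcases hl with rfl | rfl
        · exact hp.one_lt.le
        · exact hq.one_lt.le
      have hl1' : (1 : ℝ) ≤ l := by exact_mod_cast hl1
      rw [div_le_iff₀ (by linarith)]
      have := hD l
      have h7 : (0 : ℝ) ≤ D := (h0 l).trans this
      nlinarith
    have h7 := sum_le_sum h6
    rw [sum_const, nsmul_eq_mul] at h7
    have h8 : (({p, q} : Finset ℕ).card : ℝ) ≤ 2 := by exact_mod_cast card_le_two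
    have h9 : (0 : ℝ) ≤ D := Nat.cast_nonneg _
    nlinarith
  linarith

theorem pair_count3 (T : Tr h0 h1 h2 B D C w0 w1 w2) :
    ∃ K : ℝ, 0 < K ∧ ∃ s : ℕ, 0 < s ∧ ∀ (Y y : ℕ) (M : ℤ), 2 ≤ y → B ≤ y → y ^ (s + 2) ≤ Y →
    ∀ p q : ℕ, p ∈ pr (B + 1) (y + 1) → q ∈ pr (B + 1) (y + 1) → p ≠ q →
    ∀ Z1 Z2 : Finset ℕ, Z1 ⊆ pr (B + 1) (y + 1) → Z2 ⊆ pr (B + 1) (y + 1) → ∀ S : Finset ℤ,
    (∀ m ∈ S, M < m ∧ m ≤ M + Y ∧ (p : ℤ) ∣ h1.eval m ∧ (q : ℤ) ∣ h2.eval m ∧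
      (∀ l ∈ pr (B + 1) (y + 1), ¬ (l : ℤ) ∣ h0.eval m) ∧
      (∀ l ∈ Z1, ¬ (l : ℤ) ∣ h1.eval m) ∧ (∀ l ∈ Z2, ¬ (l : ℤ) ∣ h2.eval m)) →
    (S.card : ℝ) ≤ K * (Y / (p * q)) * (Real.exp (-ll y) *
      Real.exp (-(∑ l ∈ Z1, w1 l / l) - ∑ l ∈ Z2, w2 l / l)) := by
  classical
  obtain ⟨K, hK, s, hs, H⟩ := res_count3 T
  refine ⟨K * (D * D) * Real.exp (6 * D + ll (B + 1) + C) + 1, by positivity, s, hs, ?_⟩
  intro Y y M hy hBy hyY p q hp hq hpq Z1 Z2 hZ1 hZ2 S hS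
  have hB2 := T.hB2
  have hp' := mem_pr.1 hp
  have hq' := mem_pr.1 hq
  have hpos : 0 < p * q := Nat.mul_pos hp'.2.pos hq'.2.pos
  have hdY : p * q * y ^ s ≤ Y := by
    have h3 : p * q ≤ y * y := Nat.mul_le_mul (by omega) (by omega)
    calc p * q * y ^ s ≤ y * y * y ^ s := Nat.mul_le_mul_right _ h3
      _ = y ^ (s + 2) := by ring
      _ ≤ Y := hyY
  set R : Finset ℕ := (range (p * q)).filter fun c : ℕ => (p : ℤ) ∣ h1.eval (c : ℤ) ∧ (q : ℤ) ∣ h2.eval (c : ℤ) with hR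
  have hpc : Nat.Coprime p q := (Nat.coprime_primes hp'.2 hq'.2).2 hpq
  have hdvd : ∀ (g : ℤ[X]) (a b n : ℤ), n ∣ a - b → (n ∣ g.eval a ↔ n ∣ g.eval b) := by
    intro g a b n h
    have h4 : n ∣ g.eval a - g.eval b := h.trans (Polynomial.sub_dvd_eval_sub a b g)
    exact (Int.dvd_iff_dvd_of_dvd_sub h4)
  have hRc : R.card ≤ D * D := by
    have h3 : R.card ≤ ((rt h1 p) ×ˢ (rt h2 q)).card := by
      refine card_le_card_of_injOn (fun c => (c % p, c % q)) ?_ ?_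
      · intro c hc'
        rw [hR, coe_filter, Set.mem_ofPred_eq, mem_range] at hc'
        rw [coe_product, Set.mem_prod, mem_coe, mem_coe]
        constructor
        · rw [rt, mem_filter, mem_range]
          refine ⟨Nat.mod_lt _ hp'.2.pos, ?_⟩
          refine (hdvd h1 _ c p ?_).2 hc'.2.1
          push_cast
          exact dvd_sub_comm.1 Int.dvd_self_sub_emod
        · rw [rt, mem_filter, mem_range]
          refine ⟨Nat.mod_lt _ hq'.2.pos, ?_⟩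
          refine (hdvd h2 _ c q ?_).2 hc'.2.2
          push_cast
          exact dvd_sub_comm.1 Int.dvd_self_sub_emod
      · intro c hc' c' hc'' he
        rw [hR, coe_filter, Set.mem_ofPred_eq, mem_range] at hc' hc''
        have he1 : c % p = c' % p := congrArg Prod.fst he
        have he2 : c % q = c' % q := congrArg Prod.snd he
        have h5 : c ≡ c' [MOD p * q] := (Nat.modEq_and_modEq_iff_modEq_mul hpc).1 ⟨he1, he2⟩
        exact Nat.ModEq.eq_of_lt_of_lt h5 hc'.1 hc''.1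
    rw [card_product] at h3
    exact h3.trans (Nat.mul_le_mul (T.W1.up p hp'.2 (by omega)) (T.W2.up q hq'.2 (by omega)))
  have hmain := H Y y (p * q) M hy hpos hdY (pr (B + 1) (y + 1) \ {p, q}) (Z1 \ {p, q}) (Z2 \ {p, q})
    sdiff_subset (sdiff_subset.trans hZ1) (sdiff_subset.trans hZ2) (by
      intro l hl hd
      have h3 : l ∈ pr (B + 1) (y + 1) ∧ l ∉ ({p, q} : Finset ℕ) := by
        rcases mem_union.1 hl with h | h
        · exact ⟨(mem_sdiff.1 h).1, (mem_sdiff.1 h).2⟩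
        rcases mem_union.1 h with h | h
        · exact ⟨hZ1 (mem_sdiff.1 h).1, (mem_sdiff.1 h).2⟩
        · exact ⟨hZ2 (mem_sdiff.1 h).1, (mem_sdiff.1 h).2⟩
      have h4 := (mem_pr.1 h3.1).2
      apply h3.2
      rw [mem_insert, mem_singleton]
      rcases (Nat.Prime.dvd_mul h4).1 hd with h5 | h5
      · exact Or.inl ((Nat.prime_dvd_prime_iff_eq h4 hp'.2).1 h5)
      · exact Or.inr ((Nat.prime_dvd_prime_iff_eq h4 hq'.2).1 h5)) R S (by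
      intro m hm
      obtain ⟨a1, a2, a3, a4, a0, a5, a6⟩ := hS m hm
      refine ⟨a1, a2, ?_, fun l hl => a0 l (mem_sdiff.1 hl).1, fun l hl => a5 l (mem_sdiff.1 hl).1,
        fun l hl => a6 l (mem_sdiff.1 hl).1⟩
      have h5 : (0 : ℤ) ≤ m % ((p * q : ℕ) : ℤ) := Int.emod_nonneg m (by exact_mod_cast hpos.ne')
      have h6 : m % ((p * q : ℕ) : ℤ) < ((p * q : ℕ) : ℤ) := Int.emod_lt_of_pos m (by exact_mod_cast hpos)
      have h7 : ((p * q : ℕ) : ℤ) ∣ m - m % ((p * q : ℕ) : ℤ) := Int.dvd_self_sub_emod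
      rw [hR, mem_filter, mem_range, Int.toNat_of_nonneg h5]
      refine ⟨by omega, ?_, ?_⟩
      · refine (hdvd h1 m _ p ?_).1 a3
        exact (Dvd.intro (q : ℤ) (by push_cast; ring)).trans h7
      · refine (hdvd h2 m _ q ?_).1 a4
        exact (Dvd.intro_left (p : ℤ) (by push_cast; ring)).trans h7)
  have b0 := lose T.W0.nn T.W0.le (pr (B + 1) (y + 1)) hp'.2 hq'.2
  have b1 := lose T.W1.nn T.W1.le Z1 hp'.2 hq'.2
  have b2 := lose T.W2.nn T.W2.le Z2 hp'.2 hq'.2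
  have b3 := sum_all T.W0 hB2 hy hBy
  have hE : Real.exp (-(∑ l ∈ pr (B + 1) (y + 1) \ {p, q}, w0 l / l) - (∑ l ∈ Z1 \ {p, q}, w1 l / l)
      - ∑ l ∈ Z2 \ {p, q}, w2 l / l) ≤
      Real.exp (6 * D + ll (B + 1) + C) * (Real.exp (-ll y) *
        Real.exp (-(∑ l ∈ Z1, w1 l / l) - ∑ l ∈ Z2, w2 l / l)) := by
    rw [← Real.exp_add, ← Real.exp_add]
    exact Real.exp_le_exp.2 (by linarith)
  have hRc' : (R.card : ℝ) ≤ D * D := by exact_mod_cast hRc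
  have hYp : (0 : ℝ) ≤ (Y : ℝ) / (p * q) := by positivity
  obtain ⟨X, hX⟩ : ∃ X : ℝ, X = Real.exp (-ll y) * Real.exp (-(∑ l ∈ Z1, w1 l / l) - ∑ l ∈ Z2, w2 l / l) := ⟨_, rfl⟩
  rw [← hX] at hE ⊢
  have hx : 0 ≤ X := by rw [hX]; positivity
  push_cast at hmain
  refine hmain.trans ?_
  calc K * R.card * (Y / (p * q)) * Real.exp (-(∑ l ∈ pr (B + 1) (y + 1) \ {p, q}, w0 l / l)
        - (∑ l ∈ Z1 \ {p, q}, w1 l / l) - ∑ l ∈ Z2 \ {p, q}, w2 l / l)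
      ≤ K * (D * D) * (Y / (p * q)) * (Real.exp (6 * D + ll (B + 1) + C) * X) := by
        apply mul_le_mul _ hE (Real.exp_pos _).le (by positivity)
        apply mul_le_mul_of_nonneg_right _ hYp
        exact mul_le_mul_of_nonneg_left hRc' hK.le
    _ = (K * (D * D) * Real.exp (6 * D + ll (B + 1) + C)) * ((Y / (p * q)) * X) := by ring
    _ ≤ (K * (D * D) * Real.exp (6 * D + ll (B + 1) + C) + 1) * ((Y / (p * q)) * X) := by
        apply mul_le_mul_of_nonneg_right _ (by positivity)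
        linarith
    _ = _ := by ring

/-- no prime in `Z1` divides `h1(m)`, none in `Z2` divides `h2(m)` -/
theorem free_count3 (T : Tr h0 h1 h2 B D C w0 w1 w2) :
    ∃ K : ℝ, 0 < K ∧ ∃ s : ℕ, 0 < s ∧ ∀ (Y y : ℕ) (M : ℤ), 2 ≤ y → B ≤ y → y ^ s ≤ Y →
    ∀ Z1 Z2 : Finset ℕ, Z1 ⊆ pr (B + 1) (y + 1) → Z2 ⊆ pr (B + 1) (y + 1) → ∀ S : Finset ℤ,
    (∀ m ∈ S, M < m ∧ m ≤ M + Y ∧ (∀ l ∈ pr (B + 1) (y + 1), ¬ (l : ℤ) ∣ h0.eval m) ∧
      (∀ l ∈ Z1, ¬ (l : ℤ) ∣ h1.eval m) ∧ (∀ l ∈ Z2, ¬ (l : ℤ) ∣ h2.eval m)) →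
    (S.card : ℝ) ≤ K * Y * (Real.exp (-ll y) *
      Real.exp (-(∑ l ∈ Z1, w1 l / l) - ∑ l ∈ Z2, w2 l / l)) := by
  classical
  obtain ⟨K, hK, s, hs, H⟩ := res_count3 T
  refine ⟨K * Real.exp (ll (B + 1) + C), by positivity, s, hs, ?_⟩
  intro Y y M hy hBy hyY Z1 Z2 hZ1 hZ2 S hS
  have h3 := H Y y 1 M hy one_pos (by rw [one_mul]; exact hyY) (pr (B + 1) (y + 1)) Z1 Z2 (Subset.refl _)
    hZ1 hZ2 (by
      intro l hl hd
      have h4 : l ∈ pr (B + 1) (y + 1) := by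
        rcases mem_union.1 hl with h | h
        · exact h
        rcases mem_union.1 h with h | h
        · exact hZ1 h
        · exact hZ2 h
      exact (mem_pr.1 h4).2.one_lt.ne' (Nat.dvd_one.1 hd)) {0} S (by
      intro m hm
      obtain ⟨a1, a2, a3, a4⟩ := hS m hm
      refine ⟨a1, a2, ?_, a3, a4⟩
      simp)
  have b3 := sum_all T.W0 T.hB2 hy hBy
  rw [card_singleton, Nat.cast_one, mul_one, div_one] at h3
  refine h3.trans ?_
  have hE : Real.exp (-(∑ l ∈ pr (B + 1) (y + 1), w0 l / l) - (∑ l ∈ Z1, w1 l / l) - ∑ l ∈ Z2, w2 l / l) ≤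
      Real.exp (ll (B + 1) + C) * (Real.exp (-ll y) *
        Real.exp (-(∑ l ∈ Z1, w1 l / l) - ∑ l ∈ Z2, w2 l / l)) := by
    rw [← Real.exp_add, ← Real.exp_add]
    exact Real.exp_le_exp.2 (by linarith)
  refine (mul_le_mul_of_nonneg_left hE (by positivity)).trans (le_of_eq (by ring))

end

end Pool.Agent.H37.PP
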