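import Pool.Agent.H37.PB.Core
import Pool.Agent.H37.PP.Cl

/-!
PP Core: the count (adapted from H37/PB/Core).
-/

set_option autoImplicit false

namespace Pool.Agent.H37.PP

open Finset Polynomial Pool.Agent.H37.PPC Pool.Agent.H37.PPD Pool.Agent.H37.PB

section

variable {h0 h1 h2 : ℤ[X]} {B D : ℕ} {C : ℝ} {w0 w1 w2 : ℕ → ℝ}

/-- no prime divisor of `h1(m)`, or none of `h2(m)` -/
theorem count_none3 (T : Tr h0 h1 h2 B D C w0 w1 w2) :
    ∃ K : ℝ, 0 < K ∧ ∃ s : ℕ, 0 < s ∧ ∀ (Y y : ℕ) (M : ℤ), 2 ≤ y → y ^ s ≤ Y → B ≤ y → ∀ S : Finset ℤ,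
    (∀ m ∈ S, M < m ∧ m ≤ M + Y ∧ (∀ l ∈ pr (B + 1) (y + 1), ¬ (l : ℤ) ∣ h0.eval m) ∧
      ((∀ l ∈ pr (B + 1) (y + 1), ¬ (l : ℤ) ∣ h1.eval m) ∨
      (∀ l ∈ pr (B + 1) (y + 1), ¬ (l : ℤ) ∣ h2.eval m))) →
    (S.card : ℝ) ≤ K * Y * Real.exp (-(2 * ll y)) := by
  classical
  obtain ⟨K, hK, s, hs, H⟩ := free_count3 T
  refine ⟨2 * (K * Real.exp (C + ll (B + 1))), by positivity, s, hs, ?_⟩
  intro Y y M hy hyY hBy S hS
  have hm : ∀ (h : ℤ[X]) (w : ℕ → ℝ), Wt h B D C w →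
      Real.exp (-ll y) * Real.exp (-(∑ l ∈ pr (B + 1) (y + 1), w l / l)) ≤
        Real.exp (C + ll (B + 1)) * Real.exp (-(2 * ll y)) := by
    intro h w hw
    have h3 := sum_all hw T.hB2 hy hBy
    rw [← Real.exp_add, ← Real.exp_add]
    apply Real.exp_le_exp.2
    linarith
  obtain ⟨N1, hN1⟩ : ∃ N : ℤ → Prop, ∀ m, N m ↔ ∀ l ∈ pr (B + 1) (y + 1), ¬ (l : ℤ) ∣ h1.eval m :=
    ⟨_, fun m => Iff.rfl⟩
  obtain ⟨N2, hN2⟩ : ∃ N : ℤ → Prop, ∀ m, N m ↔ ∀ l ∈ pr (B + 1) (y + 1), ¬ (l : ℤ) ∣ h2.eval m :=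
    ⟨_, fun m => Iff.rfl⟩
  have hS1 := H Y y M hy hBy hyY (pr (B + 1) (y + 1)) ∅ (Subset.refl _) (empty_subset _) (S.filter N1) (by
      intro m hm
      rw [mem_filter] at hm
      exact ⟨(hS m hm.1).1, (hS m hm.1).2.1, (hS m hm.1).2.2.1, (hN1 m).1 hm.2, by simp⟩)
  have hS2 := H Y y M hy hBy hyY ∅ (pr (B + 1) (y + 1)) (empty_subset _) (Subset.refl _) (S.filter N2) (by
      intro m hm
      rw [mem_filter] at hm
      exact ⟨(hS m hm.1).1, (hS m hm.1).2.1, (hS m hm.1).2.2.1, by simp, (hN2 m).1 hm.2⟩)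
  rw [sum_empty, sub_zero] at hS1
  rw [sum_empty, neg_zero, zero_sub] at hS2
  have hcov : S ⊆ (S.filter N1) ∪ (S.filter N2) := by
    intro m hm
    rw [mem_union, mem_filter, mem_filter]
    rcases (hS m hm).2.2.2 with h | h
    · exact Or.inl ⟨hm, (hN1 m).2 h⟩
    · exact Or.inr ⟨hm, (hN2 m).2 h⟩
  have h3 : (S.card : ℝ) ≤ ((S.filter N1).card : ℝ) + ((S.filter N2).card : ℝ) := by
    have := (card_le_card hcov).trans (card_union_le _ _)
    exact_mod_cast this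
  have hKY : 0 ≤ K * (Y : ℝ) := by positivity
  have e1 := mul_le_mul_of_nonneg_left (hm h1 w1 T.W1) hKY
  have e2 := mul_le_mul_of_nonneg_left (hm h2 w2 T.W2) hKY
  calc (S.card : ℝ) ≤ K * Y * (Real.exp (C + ll (B + 1)) * Real.exp (-(2 * ll y))) +
        K * Y * (Real.exp (C + ll (B + 1)) * Real.exp (-(2 * ll y))) := by linarith
    _ = _ := by ring

open Classical in
theorem count_pair3 (T : Tr h0 h1 h2 B D C w0 w1 w2) :
    ∃ K : ℝ, 0 < K ∧ ∃ s : ℕ, 0 < s ∧ ∀ (Y y : ℕ) (M : ℤ), 2 ≤ y → B ≤ y → y ^ (s + 2) ≤ Y →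
    ∀ p q : ℕ, p ∈ pr (B + 1) (y + 1) → q ∈ pr (B + 1) (y + 1) → ∀ S : Finset ℤ,
    (∀ m ∈ S, M < m ∧ m ≤ M + Y ∧ (p : ℤ) ∣ h1.eval m ∧ (q : ℤ) ∣ h2.eval m ∧
      (∀ l ∈ pr (B + 1) (y + 1), ¬ (l : ℤ) ∣ h0.eval m) ∧
      (∀ l ∈ pr (p + 1) (y + 1), ¬ (l : ℤ) ∣ h1.eval m) ∧ (∀ l ∈ pr (q + 1) (y + 1), ¬ (l : ℤ) ∣ h2.eval m) ∧
      ∀ p q : ℕ, p.Prime → q.Prime → B < p → B < q → (p : ℤ) ∣ h1.eval m → (q : ℤ) ∣ h2.eval m →
        jacobiSym (p : ℤ) q ≠ -1) →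
    (S.card : ℝ) ≤ K * Y * (Real.exp (-(3 * ll y)) * gg (Exc ch1 w1) (Exc ch2 w2) (ll y) p q) := by
  obtain ⟨K, hK, s, hs, H⟩ := pair_count3 T
  have hB2 := T.hB2
  have hC0 : 0 ≤ C := (abs_nonneg _).trans (T.W1.me 2 2 le_rfl le_rfl)
  obtain ⟨c1, hc1, H1⟩ := half_lower h1 B D C w1 T.W1 ch1
  obtain ⟨c2, hc2, H2⟩ := half_lower h2 B D C w2 T.W2 ch2
  refine ⟨K * Real.exp (2 * C + 2 + c1 + c2), by positivity, s, hs, ?_⟩
  intro Y y M hy hBy hyY p q hp hq S hS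
  have hp' := mem_pr.1 hp
  have hq' := mem_pr.1 hq
  have hp0 : (0 : ℝ) < p := by exact_mod_cast hp'.2.pos
  have hq0 : (0 : ℝ) < q := by exact_mod_cast hq'.2.pos
  have hlp : 0 < Real.log p := Real.log_pos (by exact_mod_cast hp'.2.one_lt)
  have hlq : 0 < Real.log q := Real.log_pos (by exact_mod_cast hq'.2.one_lt)
  have hLy := ll_ge hy
  have hg0 : 0 ≤ gg (Exc ch1 w1) (Exc ch2 w2) (ll y) p q := by
    unfold gg
    apply div_nonneg _ (by positivity)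
    have h3 : 0 ≤ (ll y + 3) * (Real.log p + Real.log q) := mul_nonneg (by linarith) (by linarith)
    have h4 : 0 ≤ Real.log p * Real.log q := by positivity
    split_ifs <;> linarith
  by_cases hpq : p = q
  · have hSe : S = ∅ := by
      rw [eq_empty_iff_forall_notMem]
      intro m hm
      obtain ⟨a1, a2, a3, a4, -⟩ := hS m hm
      rw [← hpq] at a4
      exact T.c12 p hp'.2 (by omega) m a3 a4
    rw [hSe, card_empty, Nat.cast_zero]
    positivity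
  -- the basic sums
  have hbase : ∀ (w : ℕ → ℝ) (t : ℕ), (∀ a b : ℕ, 2 ≤ a → a ≤ b → |∑ l ∈ pr a b, w l / l - (ll b - ll a)| ≤ C) →
      2 ≤ t → t ≤ y → ll y - ll t - C - 1 ≤ ∑ l ∈ pr (t + 1) (y + 1), w l / l := by
    intro w t hw ht hty
    have h3 := (abs_le.1 (hw (t + 1) (y + 1) (by omega) (by omega))).1
    have h4 := ll_mono hy (by omega : y ≤ y + 1)
    have h5 := ll_succ ht
    linarith
  have hb1 := hbase w1 p T.W1.me (by omega) (by omega)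
  have hb2 := hbase w2 q T.W2.me (by omega) (by omega)
  have hYpq : (0 : ℝ) ≤ K * (Y / (p * q)) := by positivity
  have hsubp : pr (p + 1) (y + 1) ⊆ pr (B + 1) (y + 1) := by
    intro l hl
    rw [mem_pr] at hl ⊢
    exact ⟨⟨by omega, hl.1.2⟩, hl.2⟩
  have hsubq : pr (q + 1) (y + 1) ⊆ pr (B + 1) (y + 1) := by
    intro l hl
    rw [mem_pr] at hl ⊢
    exact ⟨⟨by omega, hl.1.2⟩, hl.2⟩
  -- it suffices to bound the exponential
  have he3 : Real.exp (-(3 * ll y)) = Real.exp (-ll y) * Real.exp (-(2 * ll y)) := by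
    rw [← Real.exp_add]
    congr 1
    ring
  have hfin : ∀ E : ℝ, (S.card : ℝ) ≤ K * (Y / (p * q)) * (Real.exp (-ll y) * Real.exp E) →
      Real.exp E ≤ Real.exp (2 * C + 2 + c1 + c2) * (Real.exp (-(2 * ll y)) *
        (gg (Exc ch1 w1) (Exc ch2 w2) (ll y) p q * (p * q))) →
      (S.card : ℝ) ≤ K * Real.exp (2 * C + 2 + c1 + c2) * Y *
        (Real.exp (-(3 * ll y)) * gg (Exc ch1 w1) (Exc ch2 w2) (ll y) p q) := by
    intro E h3 h4
    refine h3.trans ((mul_le_mul_of_nonneg_left (mul_le_mul_of_nonneg_left h4 (Real.exp_pos _).le)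
      hYpq).trans (le_of_eq ?_))
    rw [he3]
    field_simp
  have hgg : gg (Exc ch1 w1) (Exc ch2 w2) (ll y) p q * (p * q) =
      (ll y + 3) * (Real.log p + Real.log q) + (if Exc ch2 w2 p then Real.log p * Real.log q else 0) +
      (if Exc ch1 w1 q then Real.log p * Real.log q else 0) := by
    unfold gg
    field_simp
  have hpos3 : 0 ≤ (ll y + 3) * (Real.log p + Real.log q) := mul_nonneg (by linarith) (by linarith)
  have hpos4 : 0 ≤ Real.log p * Real.log q := by positivity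
  by_cases hex : Exc ch2 w2 p ∨ Exc ch1 w1 q
  · -- exceptional pair
    have h3 := H Y y M hy hBy hyY p q hp hq hpq (pr (p + 1) (y + 1)) (pr (q + 1) (y + 1)) hsubp hsubq S (by
      intro m hm
      obtain ⟨a1, a2, a3, a4, a0, a5, a6, -⟩ := hS m hm
      exact ⟨a1, a2, a3, a4, a0, a5, a6⟩)
    refine hfin _ h3 ?_
    rw [hgg]
    have h4 : Real.exp (-(∑ l ∈ pr (p + 1) (y + 1), w1 l / l) - ∑ l ∈ pr (q + 1) (y + 1), w2 l / l) ≤
        Real.exp (2 * C + 2 + c1 + c2) * (Real.exp (-(2 * ll y)) * (Real.log p * Real.log q)) := by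
      rw [← exp_ll (a := p) (by omega), ← exp_ll (a := q) (by omega), ← Real.exp_add, ← Real.exp_add,
        ← Real.exp_add]
      apply Real.exp_le_exp.2
      linarith
    refine h4.trans ?_
    apply mul_le_mul_of_nonneg_left _ (Real.exp_pos _).le
    apply mul_le_mul_of_nonneg_left _ (Real.exp_pos _).le
    rcases hex with h | h
    · rw [if_pos h]
      split_ifs <;> linarith
    · rw [if_pos h]
      split_ifs <;> linarith
  · push Not at hex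
    obtain ⟨hex1, hex2⟩ := hex
    obtain ⟨t, ht⟩ : ∃ t : ℕ, t = min p q := ⟨_, rfl⟩
    have hT2 : 2 ≤ t := by
      rw [ht, le_min_iff]
      omega
    have hTp : t ≤ p := by rw [ht]; exact min_le_left _ _
    have hTq : t ≤ q := by rw [ht]; exact min_le_right _ _
    have g1 := H1 q t hex2 (fun l hl hl2 hlq => ch1_pm q l hq'.2 (by omega) hl hlq) hT2 hTq
    have g2 := H2 p t hex1 (fun l hl hl2 hlp => ch2_pm p l hp'.2 hl hlp) hT2 hTp
    set F1 : Finset ℕ := (pr 2 t).filter (fun l => B < l ∧ 2 < l ∧ ch1 l q = -1) with hF1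
    set F2 : Finset ℕ := (pr 2 t).filter (fun l => B < l ∧ 2 < l ∧ ch2 l p = -1) with hF2
    have hF1m : ∀ l ∈ F1, l < t ∧ l.Prime ∧ B < l ∧ 2 < l ∧ ch1 l q = -1 := by
      intro l hl
      rw [hF1, mem_filter, mem_pr] at hl
      exact ⟨hl.1.1.2, hl.1.2, hl.2.1, hl.2.2.1, hl.2.2.2⟩
    have hF2m : ∀ l ∈ F2, l < t ∧ l.Prime ∧ B < l ∧ 2 < l ∧ ch2 l p = -1 := by
      intro l hl
      rw [hF2, mem_filter, mem_pr] at hl
      exact ⟨hl.1.1.2, hl.1.2, hl.2.1, hl.2.2.1, hl.2.2.2⟩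
    have d1 : Disjoint (pr (p + 1) (y + 1)) F1 := by
      rw [disjoint_left]
      intro l hl hl'
      have a := mem_pr.1 hl
      have b := hF1m l hl'
      omega
    have d2 : Disjoint (pr (q + 1) (y + 1)) F2 := by
      rw [disjoint_left]
      intro l hl hl'
      have a := mem_pr.1 hl
      have b := hF2m l hl'
      omega
    have h3 := H Y y M hy hBy hyY p q hp hq hpq (pr (p + 1) (y + 1) ∪ F1) (pr (q + 1) (y + 1) ∪ F2) (by
        apply union_subset hsubp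
        intro l hl
        have b := hF1m l hl
        rw [mem_pr]
        exact ⟨⟨by omega, by omega⟩, b.2.1⟩) (by
        apply union_subset hsubq
        intro l hl
        have b := hF2m l hl
        rw [mem_pr]
        exact ⟨⟨by omega, by omega⟩, b.2.1⟩) S (by
      intro m hm
      obtain ⟨a1, a2, a3, a4, a0, a5, a6, a7⟩ := hS m hm
      refine ⟨a1, a2, a3, a4, a0, ?_, ?_⟩
      · intro l hl
        rcases mem_union.1 hl with h | h
        · exact a5 l h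
        · intro hd
          have b := hF1m l h
          have hj := a7 l q b.2.1 hq'.2 b.2.2.1 (by omega) hd a4
          have ho : Odd q := hq'.2.odd_of_ne_two (by omega)
          have e := b.2.2.2.2
          unfold ch1 psi at e
          rw [if_pos ho] at e
          exact hj (by exact_mod_cast e)
      · intro l hl
        rcases mem_union.1 hl with h | h
        · exact a6 l h
        · intro hd
          have b := hF2m l h
          have hj := a7 p l hp'.2 b.2.1 (by omega) b.2.2.1 a3 hd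
          have e := b.2.2.2.2
          unfold ch2 at e
          exact hj (by exact_mod_cast e))
    rw [sum_union d1, sum_union d2] at h3
    refine hfin _ h3 ?_
    rw [hgg, if_neg hex1, if_neg hex2, add_zero, add_zero]
    have hlam1 := lam_mono (a := q) (b := y) (by omega) (by omega)
    have hlam2 := lam_mono (a := p) (b := y) (by omega) (by omega)
    have hmax : ll p + ll q - ll t = ll (max p q) := by
      rcases le_total p q with h | h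
      · rw [ht, min_eq_left h, max_eq_right h]; ring
      · rw [ht, min_eq_right h, max_eq_left h]; ring
    have h4 : Real.exp (-(∑ l ∈ pr (p + 1) (y + 1), w1 l / l + ∑ l ∈ F1, w1 l / l) -
        (∑ l ∈ pr (q + 1) (y + 1), w2 l / l + ∑ l ∈ F2, w2 l / l)) ≤
        Real.exp (2 * C + 2 + c1 + c2) * (Real.exp (-(2 * ll y)) * ((ll y + 3) * Real.log (max p q : ℕ))) := by
      rw [← exp_ll (a := max p q) (by have := le_max_left p q; omega)]
      have e1 : ll y + 3 = Real.exp (lam y) := by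
        unfold lam
        rw [Real.exp_log (by linarith)]
      rw [e1, ← Real.exp_add, ← Real.exp_add, ← Real.exp_add]
      apply Real.exp_le_exp.2
      linarith
    refine h4.trans ?_
    apply mul_le_mul_of_nonneg_left _ (Real.exp_pos _).le
    apply mul_le_mul_of_nonneg_left _ (Real.exp_pos _).le
    apply mul_le_mul_of_nonneg_left _ (by linarith)
    rcases le_total p q with h | h
    · rw [max_eq_right h]; linarith
    · rw [max_eq_left h]; linarith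

end

/-! ### the rate -/

theorem rate2_pos {Y : ℕ} (hY : 3 ≤ Y) : 0 < rate2 Y := by
  unfold rate2
  have h1 := ll_ge3 hY
  have h2 : 0 < Real.log Y := Real.log_pos (by exact_mod_cast (by omega : 1 < Y))
  have h3 : (0 : ℝ) < Y := by exact_mod_cast (by omega : 0 < Y)
  positivity

theorem rate2_small (Y0 : ℕ) : ∃ C : ℝ, 0 < C ∧ ∀ Y : ℕ, 3 ≤ Y → Y ≤ Y0 → (Y : ℝ) ≤ C * rate2 Y := by
  refine ⟨(Real.log (Y0 + 2)) ^ 2 / 0.0064, ?_, ?_⟩
  · have : 0 < Real.log ((Y0 : ℝ) + 2) := Real.log_pos (by linarith [(Nat.cast_nonneg Y0 : (0 : ℝ) ≤ Y0)])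
    positivity
  · intro Y hY hY0
    have h1 := ll_ge3 hY
    have h2 : 0 < Real.log Y := Real.log_pos (by exact_mod_cast (by omega : 1 < Y))
    have h3 : (0 : ℝ) < Y := by exact_mod_cast (by omega : 0 < Y)
    have h4 : Real.log Y ≤ Real.log ((Y0 : ℝ) + 2) := by
      apply Real.log_le_log h3
      have : (Y : ℝ) ≤ Y0 := by exact_mod_cast hY0
      linarith
    have h4' : Real.log Y ^ 2 ≤ Real.log ((Y0 : ℝ) + 2) ^ 2 := pow_le_pow_left₀ h2.le h4 2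
    have h5 : (0.0064 : ℝ) ≤ ll Y ^ 2 := by nlinarith
    unfold rate2
    rw [← mul_div_assoc, le_div_iff₀ (by positivity)]
    have h6 : Real.log ((Y0 : ℝ) + 2) ^ 2 / 0.0064 * (Y * ll Y ^ 2) = Y * (Real.log ((Y0 : ℝ) + 2) ^ 2 * (ll Y ^ 2 / 0.0064)) := by
      ring
    rw [h6]
    apply mul_le_mul_of_nonneg_left _ h3.le
    have h7 : (1 : ℝ) ≤ ll Y ^ 2 / 0.0064 := by rw [le_div_iff₀ (by norm_num)]; linarith
    refine h4'.trans ?_
    exact le_mul_of_one_le_right (by positivity) h7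

/-- comparison of `y` and `Y` -/
theorem rate2_conv {T y Y : ℕ} (hT : 1 ≤ T) (hy : 2 ≤ y) (hY : 3 ≤ Y) (hyY : y ^ T ≤ Y) (hYy : Y < (y + 1) ^ T) :
    Y * (Real.exp (-(2 * ll y)) * (ll y + 3) ^ 2) ≤ ((2 * T) ^ 2 * 1600) * rate2 Y := by
  have h1 := exp_ll_le hT hy hyY hYy 2 zero_le_two
  rw [Real.rpow_two, Real.rpow_two] at h1
  have h2 : -2 * ll y = -(2 * ll y) := by ring
  rw [h2] at h1
  have h3 : ll y ≤ ll Y := ll_mono hy ((Nat.le_self_pow (by omega) y).trans hyY)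
  have h4 := ll_ge hy
  have h5 := ll_ge3 hY
  have h6 : (ll y + 3) ^ 2 ≤ 1600 * ll Y ^ 2 := by
    have h7 : ll y + 3 ≤ 40 * ll Y := by linarith
    have h8 := mul_self_le_mul_self (by linarith : 0 ≤ ll y + 3) h7
    nlinarith
  have hl : 0 < Real.log Y := Real.log_pos (by exact_mod_cast (by omega : 1 < Y))
  have hY0 : (0 : ℝ) ≤ Y := Nat.cast_nonneg Y
  calc (Y : ℝ) * (Real.exp (-(2 * ll y)) * (ll y + 3) ^ 2) ≤
        Y * (((2 * T) ^ 2 / Real.log Y ^ 2) * (1600 * ll Y ^ 2)) := by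
        apply mul_le_mul_of_nonneg_left _ hY0
        exact mul_le_mul h1 h6 (by positivity) (by positivity)
    _ = _ := by unfold rate2; ring

theorem core3 (h0 h1 h2 : ℤ[X]) (hd0 : 1 ≤ h0.natDegree) (hd1 : 1 ≤ h1.natDegree) (hd2 : 1 ≤ h2.natDegree)
    (B0 : ℕ) (hc01 : Cop B0 h0 h1) (hc02 : Cop B0 h0 h2) (hc12 : Cop B0 h1 h2) :
    ∃ C : ℝ, 0 < C ∧ ∀ (Y : ℕ) (M : ℤ), 3 ≤ Y → ∀ S : Finset ℤ, (∀ m ∈ S, M < m ∧ m ≤ M + Y) →
      (∀ m ∈ S, ∀ l : ℕ, l.Prime → l ^ 2 ≤ Y → ¬ (l : ℤ) ∣ h0.eval m) →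
      (∀ m ∈ S, ∀ p q : ℕ, p.Prime → q.Prime → B0 < p → B0 < q → (p : ℤ) ∣ h1.eval m → (q : ℤ) ∣ h2.eval m →
        jacobiSym (p : ℤ) q ≠ -1) →
      (S.card : ℝ) ≤ C * rate2 Y := by
  classical
  obtain ⟨B', D', C', w0, hw0⟩ := exists_wt h0 hd0
  obtain ⟨B1, D1, C1, w1, hw1⟩ := exists_wt h1 hd1
  obtain ⟨B2, D2, C2, w2, hw2⟩ := exists_wt h2 hd2
  obtain ⟨D, hD⟩ : ∃ D : ℕ, D = D' + D1 + D2 := ⟨_, rfl⟩
  obtain ⟨B, hB⟩ : ∃ B : ℕ, B = B0 + B' + B1 + B2 + 3 * D + 2 := ⟨_, rfl⟩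
  obtain ⟨C, hC⟩ : ∃ C : ℝ, C = max C' (max C1 C2) := ⟨_, rfl⟩
  have hCop : ∀ h h' : ℤ[X], Cop B0 h h' → Cop B h h' := fun h h' hh l hl hBl => hh l hl (by omega)
  have T : Tr h0 h1 h2 B D C w0 w1 w2 :=
    ⟨hCop _ _ hc01, hCop _ _ hc02, hCop _ _ hc12,
      hw0.mono (by omega) (by omega) (by rw [hC]; exact le_max_left _ _),
      hw1.mono (by omega) (by omega) (by rw [hC]; exact (le_max_left _ _).trans (le_max_right _ _)),
      hw2.mono (by omega) (by omega) (by rw [hC]; exact (le_max_right _ _).trans (le_max_right _ _)),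
      by omega, by omega⟩
  obtain ⟨Ka, hKa, sa, hsa, HA⟩ := count_none3 T
  obtain ⟨Kb, hKb, sb, hsb, HB⟩ := count_pair3 T
  obtain ⟨Ce1, hCe1, HE1⟩ := exc_sum ch1 w1 D T.W1.nn T.W1.le ch1_abs (by
    intro l l' N hl hl' _ _ hne
    exact psi_prod l l' N hl hl' hne)
  obtain ⟨Ce2, hCe2, HE2⟩ := exc_sum ch2 w2 D T.W2.nn T.W2.le ch2_abs (by
    intro l l' N hl hl' h2 h2' hne
    exact jac_prod l l' N hl hl' hne h2 h2')
  obtain ⟨Kg, hKg, HG⟩ := sum_gg (Exc ch1 w1) (Exc ch2 w2) (max Ce1 Ce2) (hCe1.trans (le_max_left _ _))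
    (fun S hS => (HE1 S hS).trans (le_max_left _ _)) (fun S hS => (HE2 S hS).trans (le_max_right _ _))
  obtain ⟨T0, hT0⟩ : ∃ T : ℕ, T = sa + sb + 2 := ⟨_, rfl⟩
  obtain ⟨C0, hC0, H0⟩ := rate2_small ((B + 2) ^ T0)
  refine ⟨C0 + (Ka + Kb * Kg) * ((2 * T0) ^ 2 * 1600), by positivity, ?_⟩
  intro Y M hY S hSI hS0' hS
  have hr := rate2_pos hY
  have hSY : (S.card : ℝ) ≤ Y := by exact_mod_cast card_le_Y hSI
  by_cases hY0 : Y ≤ (B + 2) ^ T0
  · have h3 := H0 Y hY hY0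
    have h4 : 0 ≤ (Ka + Kb * Kg) * ((2 * T0) ^ 2 * 1600) * rate2 Y := by positivity
    nlinarith
  push Not at hY0
  have h2T : 2 ^ T0 ≤ Y := (Nat.pow_le_pow_left (by omega) T0).trans hY0.le
  obtain ⟨y, hy, hyY, hYy⟩ := exists_root T0 Y (by omega) h2T
  have hBy : B + 2 ≤ y := by
    by_contra hlt
    have h3 : (y + 1) ^ T0 ≤ (B + 2) ^ T0 := Nat.pow_le_pow_left (by omega) T0
    omega
  have hconv := rate2_conv (T := T0) (by omega) hy hY hyY hYy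
  have hya : y ^ sa ≤ Y := (Nat.pow_le_pow_right (by omega) (by omega)).trans hyY
  have hyb : y ^ (sb + 2) ≤ Y := (Nat.pow_le_pow_right (by omega) (by omega)).trans hyY
  have hy2 : y ^ 2 ≤ Y := (Nat.pow_le_pow_right (by omega) (by omega)).trans hyY
  have hLy := ll_ge hy
  set P := pr (B + 1) (y + 1) with hP
  have hPh0 : ∀ m ∈ S, ∀ l ∈ P, ¬ (l : ℤ) ∣ h0.eval m := by
    intro m hm l hl
    have h3 := mem_pr.1 hl
    exact hS0' m hm l h3.2 ((Nat.pow_le_pow_left (by omega) 2).trans hy2)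
  -- the sets
  set S0 : Finset ℤ := S.filter (fun m => (∀ l ∈ P, ¬ (l : ℤ) ∣ h1.eval m) ∨ (∀ l ∈ P, ¬ (l : ℤ) ∣ h2.eval m)) with hS0
  obtain ⟨Pp, hPp⟩ : ∃ Pp : ℕ → ℕ → ℤ → Prop, ∀ p q m, Pp p q m ↔ ((p : ℤ) ∣ h1.eval m ∧ (q : ℤ) ∣ h2.eval m ∧
    (∀ l ∈ pr (p + 1) (y + 1), ¬ (l : ℤ) ∣ h1.eval m) ∧ (∀ l ∈ pr (q + 1) (y + 1), ¬ (l : ℤ) ∣ h2.eval m)) :=
    ⟨_, fun p q m => Iff.rfl⟩
  set Sp : ℕ → ℕ → Finset ℤ := fun p q => S.filter (Pp p q) with hSp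
  have hcov : S ⊆ S0 ∪ P.biUnion (fun p => P.biUnion (fun q => Sp p q)) := by
    intro m hm
    rw [mem_union]
    by_cases h3 : (∀ l ∈ P, ¬ (l : ℤ) ∣ h1.eval m) ∨ (∀ l ∈ P, ¬ (l : ℤ) ∣ h2.eval m)
    · left
      rw [hS0, mem_filter]
      exact ⟨hm, h3⟩
    · right
      push Not at h3
      obtain ⟨⟨l1, hl1, hd1'⟩, ⟨l2, hl2, hd2'⟩⟩ := h3
      have hmax : ∀ h : ℤ[X], (∃ l ∈ P, (l : ℤ) ∣ h.eval m) → ∃ p ∈ P, (p : ℤ) ∣ h.eval m ∧
          ∀ l ∈ pr (p + 1) (y + 1), ¬ (l : ℤ) ∣ h.eval m := by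
        rintro h ⟨l, hl, hd⟩
        have hne : (P.filter fun l : ℕ => (l : ℤ) ∣ h.eval m).Nonempty := ⟨l, mem_filter.2 ⟨hl, hd⟩⟩
        obtain ⟨p, hp, hpm⟩ := (P.filter fun l : ℕ => (l : ℤ) ∣ h.eval m).exists_max_image id hne
        rw [mem_filter] at hp
        refine ⟨p, hp.1, hp.2, fun l' hl' hd' => ?_⟩
        have h4 := mem_pr.1 hl'
        have h5 := mem_pr.1 hp.1
        have h6 : l' ∈ P.filter fun l : ℕ => (l : ℤ) ∣ h.eval m := by
          rw [mem_filter]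
          exact ⟨mem_pr.2 ⟨⟨by omega, h4.1.2⟩, h4.2⟩, hd'⟩
        have h7 : l' ≤ p := hpm l' h6
        omega
      obtain ⟨p, hp, hpd, hpm⟩ := hmax h1 ⟨l1, hl1, hd1'⟩
      obtain ⟨q, hq, hqd, hqm⟩ := hmax h2 ⟨l2, hl2, hd2'⟩
      rw [mem_biUnion]
      refine ⟨p, hp, ?_⟩
      rw [mem_biUnion]
      refine ⟨q, hq, ?_⟩
      show m ∈ S.filter (Pp p q)
      rw [mem_filter]
      exact ⟨hm, (hPp p q m).2 ⟨hpd, hqd, hpm, hqm⟩⟩
  have hc0 : (S0.card : ℝ) ≤ Ka * Y * Real.exp (-(2 * ll y)) := by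
    refine HA Y y M hy hya (by omega) S0 fun m hm => ?_
    rw [hS0, mem_filter] at hm
    exact ⟨(hSI m hm.1).1, (hSI m hm.1).2, hPh0 m hm.1, hm.2⟩
  have hcp : ∀ p ∈ P, ∀ q ∈ P, ((Sp p q).card : ℝ) ≤
      Kb * Y * (Real.exp (-(3 * ll y)) * gg (Exc ch1 w1) (Exc ch2 w2) (ll y) p q) := by
    intro p hp q hq
    refine HB Y y M hy (by omega) hyb p q hp hq (Sp p q) fun m hm => ?_
    change m ∈ S.filter (Pp p q) at hm
    rw [mem_filter, hPp] at hm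
    exact ⟨(hSI m hm.1).1, (hSI m hm.1).2, hm.2.1, hm.2.2.1, hPh0 m hm.1, hm.2.2.2.1, hm.2.2.2.2,
      fun p q hp hq hBp hBq => hS m hm.1 p q hp hq (by omega) (by omega)⟩
  have hcard : (S.card : ℝ) ≤ S0.card + ∑ p ∈ P, ∑ q ∈ P, ((Sp p q).card : ℝ) := by
    have h3 : S.card ≤ S0.card + ∑ p ∈ P, ∑ q ∈ P, (Sp p q).card := by
      refine (card_le_card hcov).trans ((card_union_le _ _).trans ?_)
      refine Nat.add_le_add_left ?_ _
      refine card_biUnion_le.trans (sum_le_sum fun p _ => card_biUnion_le)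
    exact_mod_cast h3
  have hsum : ∑ p ∈ P, ∑ q ∈ P, ((Sp p q).card : ℝ) ≤
      Kb * Y * (Real.exp (-(3 * ll y)) * (Kg * ((ll y + 3) ^ 2 * Real.log y))) := by
    calc ∑ p ∈ P, ∑ q ∈ P, ((Sp p q).card : ℝ) ≤ ∑ p ∈ P, ∑ q ∈ P,
          Kb * Y * (Real.exp (-(3 * ll y)) * gg (Exc ch1 w1) (Exc ch2 w2) (ll y) p q) :=
          sum_le_sum fun p hp => sum_le_sum fun q hq => hcp p hp q hq
      _ = Kb * Y * (Real.exp (-(3 * ll y)) * ∑ p ∈ P, ∑ q ∈ P, gg (Exc ch1 w1) (Exc ch2 w2) (ll y) p q) := by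
          simp only [← mul_sum]
      _ ≤ _ := by
          apply mul_le_mul_of_nonneg_left _ (by positivity)
          apply mul_le_mul_of_nonneg_left _ (Real.exp_pos _).le
          exact HG B y (by omega) hy
  have hE : Real.exp (-(3 * ll y)) * Real.log y = Real.exp (-(2 * ll y)) := by
    rw [← exp_ll hy, ← Real.exp_add]
    congr 1
    ring
  have h5 : (1 : ℝ) ≤ (ll y + 3) ^ 2 := by nlinarith
  have h6 := Real.exp_pos (-(2 * ll y))
  have hY' : (0 : ℝ) ≤ Y := Nat.cast_nonneg Y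
  have h7 : (S0.card : ℝ) ≤ Ka * (Y * (Real.exp (-(2 * ll y)) * (ll y + 3) ^ 2)) := by
    refine hc0.trans ?_
    have h8 : Real.exp (-(2 * ll y)) ≤ Real.exp (-(2 * ll y)) * (ll y + 3) ^ 2 := le_mul_of_one_le_right h6.le h5
    calc Ka * Y * Real.exp (-(2 * ll y)) ≤ Ka * Y * (Real.exp (-(2 * ll y)) * (ll y + 3) ^ 2) :=
          mul_le_mul_of_nonneg_left h8 (by positivity)
      _ = _ := by ring
  have h8 : Kb * Y * (Real.exp (-(3 * ll y)) * (Kg * ((ll y + 3) ^ 2 * Real.log y))) =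
      Kb * Kg * (Y * (Real.exp (-(2 * ll y)) * (ll y + 3) ^ 2)) := by
    rw [← hE]
    ring
  rw [h8] at hsum
  have h9 : (S.card : ℝ) ≤ (Ka + Kb * Kg) * (Y * (Real.exp (-(2 * ll y)) * (ll y + 3) ^ 2)) := by linarith
  have h10 := mul_le_mul_of_nonneg_left hconv (by positivity : 0 ≤ Ka + Kb * Kg)
  have h11 : 0 ≤ C0 * rate2 Y := by positivity
  calc (S.card : ℝ) ≤ (Ka + Kb * Kg) * (Y * (Real.exp (-(2 * ll y)) * (ll y + 3) ^ 2)) := h9
    _ ≤ (Ka + Kb * Kg) * (((2 * T0) ^ 2 * 1600) * rate2 Y) := h10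
    _ ≤ _ := by
      rw [add_mul, ← mul_assoc]
      linarith

end Pool.Agent.H37.PP
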