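import Pool.Agent.H37.PB.Defs

/-!
Project PP (MP_e38f6a_co, note 5444): orders among the values of a polynomial at primes.
-/

set_option autoImplicit false

namespace Pool.Agent.H37.PP

open Finset Polynomial Pool.Agent.H37.PPC Pool.Agent.H37.PPD Pool.Agent.H37.PB

/-- `h, h'` have no common root modulo `l`, for all primes `l > B` -/
def Cop (B : ℕ) (h h' : ℤ[X]) : Prop :=
  ∀ l : ℕ, l.Prime → B < l → ∀ m : ℤ, (l : ℤ) ∣ h.eval m → ¬ (l : ℤ) ∣ h'.eval m

/-- the rate `Y (log log Y)² / (log Y)²` -/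
noncomputable def rate2 (Y : ℕ) : ℝ := Y * ll Y ^ 2 / Real.log Y ^ 2

end Pool.Agent.H37.PP
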