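import Pool.Agent.H37.PP.Sv
import Pool.Agent.H37.PB.Wt
import Pool.Agent.H37.PV.Fac

/-!
PP Sq: few `m`, with `h0(m)` free of primes `≤ √Y`, have all their large primes `p ∣ h(m)` with `p² ∣ h(m)`.

Adaptation of H37/PB/Sq.lean (private lemmas copied): `exists_wt h0`, `exists_wt h`, `sieve3 κ` with the polynomials `h0, h, 1`,
`Z0 = Z1 = pr (z+1) (y+1)`, `Z2 = ∅`, `d = 1`, `c = 0`; `y` = integer root of `Y` of order `s + 2`,
`z = (Nat.log 2 Y) ^ 2 + K` (so `Y/z ≤ 2 Y/(log Y)²`).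
`S ⊆ T1 ∪ T2`, `T1` = no `l ∈ pr (z+1) (y+1)` divides `h(m)`: `≤ C Y exp(-2 (ll (y+1) - ll (z+1)))`, `exp(2 ll (z+1)) = (log (z+1))² ≤ C (ll Y + 1)²`;
`T2` = some `l ∈ pr (z+1) (y+1)` has `l² ∣ h(m)`: at most `∑ D (Y/l² + 1) ≤ D (Y/z + y)`.
-/

set_option autoImplicit false

namespace Pool.Agent.H37.PP

open Finset Polynomial Pool.Agent.H37.PPC Pool.Agent.H37.PPD Pool.Agent.H37.PB Pool.Agent.H37.PV

private theorem sq_exists_root (t x : ℕ) (ht : 1 ≤ t) (hx : 2 ^ t ≤ x) :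
    ∃ y : ℕ, 2 ≤ y ∧ y ^ t ≤ x ∧ x < (y + 1) ^ t := by
  classical
  refine ⟨Nat.findGreatest (fun y => y ^ t ≤ x) x, ?_, ?_, ?_⟩
  · have h2x : 2 ≤ x := by
      calc 2 = 2 ^ 1 := by norm_num
        _ ≤ 2 ^ t := Nat.pow_le_pow_right (by norm_num) ht
        _ ≤ x := hx
    exact Nat.le_findGreatest (P := fun y => y ^ t ≤ x) h2x hx
  · have h : 0 ^ t ≤ x := by rw [zero_pow (by omega)]; exact Nat.zero_le _
    exact Nat.findGreatest_spec (P := fun y => y ^ t ≤ x) (Nat.zero_le x) h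
  · by_contra hcon
    push Not at hcon
    have h1 : Nat.findGreatest (fun y => y ^ t ≤ x) x + 1 ≤ x :=
      (Nat.le_self_pow (by omega) _).trans hcon
    have h2 := Nat.le_findGreatest (P := fun y => y ^ t ≤ x) h1 hcon
    omega

private theorem sq_log3 : (1 : ℝ) < Real.log 3 := by
  rw [Real.lt_log_iff_exp_lt (by norm_num)]
  have := Real.exp_one_lt_d9
  linarith

private theorem sq_log_ge {Y : ℕ} (hY : 3 ≤ Y) : (1 : ℝ) < Real.log Y := by
  refine sq_log3.trans_le (Real.log_le_log (by norm_num) ?_)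
  exact_mod_cast hY

private theorem sq_ll3 : 0 < ll 3 := by
  unfold ll
  have := sq_log3
  exact Real.log_pos (by exact_mod_cast this)

private theorem sq_ll_ge {Y : ℕ} (hY : 3 ≤ Y) : ll 3 ≤ ll Y := by
  unfold ll
  have h1 := sq_log3
  refine Real.log_le_log (by push_cast; linarith) (Real.log_le_log (by norm_num) ?_)
  exact_mod_cast hY

/-- `Y ((1 + ll Y) / log Y)²` is at most a constant times the rate. -/
private theorem sq_rate : ∃ E : ℝ, 0 < E ∧ ∀ Y : ℕ, 3 ≤ Y →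
    (Y : ℝ) * ((1 + ll Y) / Real.log Y) ^ 2 ≤ E * rate2 Y := by
  have hc := sq_ll3
  refine ⟨(1 / ll 3 + 1) ^ 2, by positivity, fun Y hY => ?_⟩
  have h1 := sq_ll_ge hY
  have h2 : 0 < Real.log Y := lt_trans one_pos (sq_log_ge hY)
  have h3 : 0 < ll Y := hc.trans_le h1
  have hY0 : (0 : ℝ) ≤ Y := Nat.cast_nonneg _
  have h4 : 1 + ll Y ≤ (1 / ll 3 + 1) * ll Y := by
    have h5 : 1 ≤ 1 / ll 3 * ll Y := by
      rw [one_div, inv_mul_eq_div, le_div_iff₀ hc, one_mul]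
      exact h1
    linarith
  have h5 : (1 + ll Y) ^ 2 ≤ ((1 / ll 3 + 1) * ll Y) ^ 2 := pow_le_pow_left₀ (by linarith) h4 2
  unfold rate2
  calc (Y : ℝ) * ((1 + ll Y) / Real.log Y) ^ 2 = (Y * (1 + ll Y) ^ 2) / Real.log Y ^ 2 := by
        rw [div_pow]
        ring
    _ ≤ (Y * ((1 / ll 3 + 1) * ll Y) ^ 2) / Real.log Y ^ 2 :=
        div_le_div_of_nonneg_right (mul_le_mul_of_nonneg_left h5 hY0) (by positivity)
    _ = (1 / ll 3 + 1) ^ 2 * (Y * ll Y ^ 2 / Real.log Y ^ 2) := by ring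

private theorem sq_card_class (M : ℤ) (Y n : ℕ) (hn : 0 < n) (v : ℤ) :
    (((Finset.Ioc M (M + Y)).filter fun x : ℤ => x ≡ v [ZMOD n]).card : ℝ) ≤ (Y : ℝ) / n + 1 := by
  have hn' : (0 : ℤ) < n := by exact_mod_cast hn
  have h := Int.Ioc_filter_modEq_card M (M + Y) hn' v
  have hnq : (0 : ℚ) < n := by exact_mod_cast hn
  set a := ⌊(((M + Y : ℤ) : ℚ) - v) / ((n : ℤ) : ℚ)⌋ with ha
  set b := ⌊((M : ℚ) - v) / ((n : ℤ) : ℚ)⌋ with hb
  have h1 : (a : ℚ) ≤ (((M + Y : ℤ) : ℚ) - v) / ((n : ℤ) : ℚ) := Int.floor_le _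
  have h2 : ((M : ℚ) - v) / ((n : ℤ) : ℚ) < b + 1 := Int.lt_floor_add_one _
  have h3 : ((a - b : ℤ) : ℚ) ≤ (Y : ℚ) / n + 1 := by
    push_cast at h1 h2 ⊢
    have h4 : ((M : ℚ) + Y - v) / n = ((M : ℚ) - v) / n + Y / n := by
      rw [← add_div]
      congr 1
      ring
    rw [h4] at h1
    linarith
  have h5 : (((((Finset.Ioc M (M + Y)).filter fun x : ℤ => x ≡ v [ZMOD n]).card : ℤ)) : ℚ) ≤
      (Y : ℚ) / n + 1 := by
    rw [h]
    rcases le_total (a - b) 0 with h6 | h6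
    · rw [max_eq_right h6]
      push_cast
      positivity
    · rw [max_eq_left h6]
      exact h3
  have h7 : ((((Finset.Ioc M (M + Y)).filter fun x : ℤ => x ≡ v [ZMOD n]).card : ℚ)) ≤
      (Y : ℚ) / n + 1 := by
    exact_mod_cast h5
  have h8 : (((((Finset.Ioc M (M + Y)).filter fun x : ℤ => x ≡ v [ZMOD n]).card : ℚ) : ℝ)) ≤
      (((Y : ℚ) / n + 1 : ℚ) : ℝ) := Rat.cast_le.2 h7
  push_cast at h8
  exact h8

private theorem sq_hensel (h : ℤ[X]) (l : ℕ) (hl : l.Prime) (m m' : ℤ) (h1 : (l : ℤ) ^ 2 ∣ h.eval m)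
    (h2 : (l : ℤ) ^ 2 ∣ h.eval m') (h3 : (l : ℤ) ∣ m' - m) (h4 : ¬ (l : ℤ) ∣ (derivative h).eval m) :
    (l : ℤ) ^ 2 ∣ m' - m := by
  obtain ⟨u, hu⟩ := h3
  obtain ⟨k, hk⟩ := Polynomial.binomExpansion h m (m' - m)
  rw [add_sub_cancel] at hk
  have h5 : (l : ℤ) ^ 2 ∣ (derivative h).eval m * (m' - m) := by
    have h6 : (derivative h).eval m * (m' - m) = h.eval m' - h.eval m - k * (m' - m) ^ 2 := by
      rw [hk]
      ring
    rw [h6]
    refine dvd_sub (dvd_sub h2 h1) ?_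
    rw [hu, mul_pow]
    exact (dvd_mul_right _ _).mul_left _
  rw [hu] at h5 ⊢
  have h0 : (l : ℤ) ≠ 0 := by exact_mod_cast hl.ne_zero
  have h7 : (l : ℤ) ∣ (derivative h).eval m * u := by
    have h8 : (l : ℤ) * l ∣ l * ((derivative h).eval m * u) := by
      have h9 : (derivative h).eval m * (l * u) = l * ((derivative h).eval m * u) := by ring
      rw [← h9, ← sq]
      exact h5
    exact (mul_dvd_mul_iff_left h0).1 h8
  have hp : _root_.Prime (l : ℤ) := Nat.prime_iff_prime_int.1 hl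
  rw [sq]
  exact mul_dvd_mul_left _ ((hp.dvd_or_dvd h7).resolve_left h4)

private theorem sq_count (h : ℤ[X]) (l : ℕ) (hl : l.Prime) (D : ℕ) (hD : (rt h l).card ≤ D)
    (hs : ∀ a : ℤ, (l : ℤ) ∣ h.eval a → ¬ (l : ℤ) ∣ (derivative h).eval a) (M : ℤ) (Y : ℕ) :
    (((Finset.Ioc M (M + Y)).filter fun m : ℤ => (l : ℤ) ^ 2 ∣ h.eval m).card : ℝ) ≤
      D * ((Y : ℝ) / (l : ℝ) ^ 2 + 1) := by
  have hl0 : (0 : ℤ) < l := by exact_mod_cast hl.pos
  set T := (Finset.Ioc M (M + Y)).filter fun m : ℤ => (l : ℤ) ^ 2 ∣ h.eval m with hT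
  have hmap : ∀ m ∈ T, (m % (l : ℤ)).toNat ∈ rt h l := by
    intro m hm
    rw [hT, mem_filter] at hm
    have h1 : 0 ≤ m % (l : ℤ) := Int.emod_nonneg _ hl0.ne'
    have h2 : m % (l : ℤ) < l := Int.emod_lt_of_pos _ hl0
    rw [rt, mem_filter, mem_range]
    refine ⟨by omega, ?_⟩
    rw [Int.toNat_of_nonneg h1]
    have h3 : (l : ℤ) ∣ h.eval m := (dvd_pow_self _ two_ne_zero).trans hm.2
    have h4 : (m % l) ≡ m [ZMOD l] := Int.mod_modEq _ _
    have h5 : h.eval (m % l) ≡ h.eval m [ZMOD l] := by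
      have h6 : (m % l) - m ∣ h.eval (m % l) - h.eval m := Polynomial.sub_dvd_eval_sub _ _ _
      exact (Int.modEq_iff_dvd.2 ((Int.modEq_iff_dvd.1 h4.symm).trans h6)).symm
    exact (Int.ModEq.dvd_iff h5).2 h3
  have hfib : ∀ r ∈ rt h l, ((T.filter fun m : ℤ => (m % (l : ℤ)).toNat = r).card : ℝ) ≤
      (Y : ℝ) / (l : ℝ) ^ 2 + 1 := by
    intro r _
    rcases (T.filter fun m : ℤ => (m % (l : ℤ)).toNat = r).eq_empty_or_nonempty with he | ⟨m0, hm0⟩
    · rw [he]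
      simp only [card_empty, Nat.cast_zero]
      positivity
    · rw [mem_filter, hT, mem_filter] at hm0
      have h1 : (T.filter fun m : ℤ => (m % (l : ℤ)).toNat = r) ⊆
          (Finset.Ioc M (M + Y)).filter fun x : ℤ => x ≡ m0 [ZMOD ((l ^ 2 : ℕ) : ℤ)] := by
        intro m hm
        rw [mem_filter, hT, mem_filter] at hm
        rw [mem_filter]
        refine ⟨hm.1.1, ?_⟩
        have h2 : 0 ≤ m % (l : ℤ) := Int.emod_nonneg _ hl0.ne'
        have h3 : 0 ≤ m0 % (l : ℤ) := Int.emod_nonneg _ hl0.ne'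
        have h4 : m % (l : ℤ) = m0 % (l : ℤ) := by
          have := hm.2
          have := hm0.2
          omega
        have h5 : (l : ℤ) ∣ m0 - m := Int.modEq_iff_dvd.1 h4
        have h6 : ¬ (l : ℤ) ∣ (derivative h).eval m :=
          hs m ((dvd_pow_self _ two_ne_zero).trans hm.1.2)
        have h7 := sq_hensel h l hl m m0 hm.1.2 hm0.1.2 h5 h6
        rw [Int.modEq_iff_dvd]
        push_cast
        exact h7
      have h8 := sq_card_class M Y (l ^ 2) (pow_pos hl.pos 2) m0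
      calc ((T.filter fun m : ℤ => (m % (l : ℤ)).toNat = r).card : ℝ) ≤ _ := by exact_mod_cast card_le_card h1
        _ ≤ _ := h8
        _ = _ := by push_cast; ring
  have hcard : (T.card : ℝ) = ∑ r ∈ rt h l, ((T.filter fun m : ℤ => (m % (l : ℤ)).toNat = r).card : ℝ) := by
    rw [card_eq_sum_card_fiberwise hmap]
    push_cast
    rfl
  rw [hcard]
  calc ∑ r ∈ rt h l, ((T.filter fun m : ℤ => (m % (l : ℤ)).toNat = r).card : ℝ)
      ≤ ∑ _r ∈ rt h l, ((Y : ℝ) / (l : ℝ) ^ 2 + 1) := sum_le_sum hfib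
    _ = (rt h l).card * ((Y : ℝ) / (l : ℝ) ^ 2 + 1) := by rw [sum_const, nsmul_eq_mul]
    _ ≤ _ := mul_le_mul_of_nonneg_right (by exact_mod_cast hD) (by positivity)

private theorem sq_log_rt {Y n : ℕ} (h : n ^ 2 ≤ Y) (hY : 3 ≤ Y) :
    (n : ℝ) ≤ 16 * (Y / Real.log Y ^ 2) := by
  have h2 : 0 < Real.log Y := lt_trans one_pos (sq_log_ge hY)
  have hY0 : (0 : ℝ) < Y := by exact_mod_cast (by omega : 0 < Y)
  have h3 : (n : ℝ) ≤ Real.sqrt Y := by
    apply Real.le_sqrt_of_sq_le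
    exact_mod_cast h
  have hs0 : 0 < Real.sqrt Y := Real.sqrt_pos.2 hY0
  have h4 : Real.log Y ≤ 4 * Real.sqrt (Real.sqrt Y) := by
    have h5 : Real.log (Real.sqrt (Real.sqrt Y)) ≤ Real.sqrt (Real.sqrt Y) := by
      have := Real.log_le_sub_one_of_pos (Real.sqrt_pos.2 hs0)
      linarith
    rw [Real.log_sqrt hs0.le, Real.log_sqrt hY0.le] at h5
    linarith
  have h5 : Real.sqrt Y * Real.sqrt Y = Y := Real.mul_self_sqrt hY0.le
  have h6 : Real.sqrt (Real.sqrt Y) * Real.sqrt (Real.sqrt Y) = Real.sqrt Y := Real.mul_self_sqrt hs0.le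
  have h7 : Real.log Y ^ 2 ≤ 16 * Real.sqrt Y := by
    calc Real.log Y ^ 2 ≤ (4 * Real.sqrt (Real.sqrt Y)) ^ 2 := pow_le_pow_left₀ h2.le h4 2
      _ = 16 * Real.sqrt Y := by
        linear_combination 16 * h6
  rw [← mul_div_assoc, le_div_iff₀ (by positivity)]
  calc (n : ℝ) * Real.log Y ^ 2 ≤ Real.sqrt Y * (16 * Real.sqrt Y) :=
        mul_le_mul h3 h7 (by positivity) hs0.le
    _ = 16 * Y := by linear_combination 16 * h5

theorem sq_part3 (h0 h : ℤ[X]) (hd0 : 1 ≤ h0.natDegree) (hi : Irreducible h) (hd : 1 ≤ h.natDegree) (B : ℕ)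
    (hc : Cop B h0 h) :
    ∃ C : ℝ, 0 < C ∧ ∀ (Y : ℕ) (M : ℤ), 3 ≤ Y → ∀ S : Finset ℤ, (∀ m ∈ S, M < m ∧ m ≤ M + Y) →
      (∀ m ∈ S, ∀ l : ℕ, l.Prime → l ^ 2 ≤ Y → ¬ (l : ℤ) ∣ h0.eval m) →
      (∀ m ∈ S, ∀ p : ℕ, p.Prime → B < p → (p : ℤ) ∣ h.eval m → (p : ℤ) ^ 2 ∣ h.eval m) →
      (S.card : ℝ) ≤ C * rate2 Y := by
  classical
  obtain ⟨B00, D0, C0, w0, hw0⟩ := exists_wt h0 hd0
  obtain ⟨B0, D, Cw, w, hw⟩ := exists_wt h hd
  obtain ⟨B1, hB1⟩ := simple_root h hi hd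
  obtain ⟨Cs, hCs, s, hs, hsv⟩ := sieve3 (D0 + D)
  obtain ⟨E, hE, hrate⟩ := sq_rate
  obtain ⟨K, hK⟩ : ∃ K : ℕ, K = B + B00 + B0 + B1 + D0 + D + 1 := ⟨_, rfl⟩
  obtain ⟨t, ht⟩ : ∃ t : ℕ, t = s + 2 := ⟨_, rfl⟩
  -- the constant
  have hA1 : (0 : ℝ) ≤ (t * (K + 5)) ^ 2 := by positivity
  have hA2 : 0 ≤ Cs * Real.exp (C0 + Cw) * (t * (K + 5)) ^ 2 := by positivity
  obtain ⟨A, hA⟩ : ∃ A : ℝ, A = (t * (K + 5)) ^ 2 + Cs * Real.exp (C0 + Cw) * (t * (K + 5)) ^ 2 + 18 * D + 1 :=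
    ⟨_, rfl⟩
  have hD0 : (0 : ℝ) ≤ D := Nat.cast_nonneg _
  have hApos : 0 < A := by
    rw [hA]
    positivity
  refine ⟨A * E, by positivity, fun Y M hY S hS hS0 hSp => ?_⟩
  have hY1 := sq_log_ge hY
  have hL : 0 < Real.log Y := by linarith
  have hll : 0 < ll Y := sq_ll3.trans_le (sq_ll_ge hY)
  have hY0 : (0 : ℝ) < Y := by exact_mod_cast (by omega : 0 < Y)
  obtain ⟨r, hr⟩ : ∃ r : ℝ, r = (1 + ll Y) / Real.log Y := ⟨_, rfl⟩
  have hr0 : 0 < r := by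
    rw [hr]
    positivity
  suffices hmain : (S.card : ℝ) ≤ A * ((Y : ℝ) * r ^ 2) by
    have h9 := hrate Y hY
    rw [← hr] at h9
    calc (S.card : ℝ) ≤ A * ((Y : ℝ) * r ^ 2) := hmain
      _ ≤ A * (E * rate2 Y) := mul_le_mul_of_nonneg_left h9 hApos.le
      _ = A * E * rate2 Y := by ring
  have hQ : 0 < (Y : ℝ) * r ^ 2 := by positivity
  have hrL : 1 + ll Y = r * Real.log Y := by
    rw [hr, div_mul_cancel₀ _ hL.ne']
  have hrinv : (1 : ℝ) / Real.log Y ^ 2 ≤ r ^ 2 := by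
    rw [hr, div_pow]
    refine div_le_div_of_nonneg_right ?_ (by positivity)
    nlinarith
  have hYr : (Y : ℝ) / Real.log Y ^ 2 ≤ Y * r ^ 2 := by
    rw [div_eq_mul_one_div]
    exact mul_le_mul_of_nonneg_left hrinv hY0.le
  -- trivial bound
  have htriv : (S.card : ℝ) ≤ Y := by
    have h1 : S ⊆ Finset.Ioc M (M + Y) := fun m hm => mem_Ioc.2 (hS m hm)
    have h2 := card_le_card h1
    rw [Int.card_Ioc] at h2
    have h3 : (M + (Y : ℤ) - M).toNat = Y := by omega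
    rw [h3] at h2
    exact_mod_cast h2
  have hsmall : Real.log Y ≤ t * (K + 5) * (1 + ll Y) →
      (S.card : ℝ) ≤ A * ((Y : ℝ) * r ^ 2) := by
    intro h1
    have h2 : 1 ≤ t * (K + 5) * r := by
      rw [hr, ← mul_div_assoc, le_div_iff₀ hL, one_mul]
      exact h1
    have h3 : 1 ≤ (t * (K + 5) * r) ^ 2 := one_le_pow₀ h2
    have h4 : (Y : ℝ) ≤ (t * (K + 5)) ^ 2 * ((Y : ℝ) * r ^ 2) := by
      calc (Y : ℝ) = Y * 1 := (mul_one _).symm
        _ ≤ Y * (t * (K + 5) * r) ^ 2 := mul_le_mul_of_nonneg_left h3 hY0.le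
        _ = (t * (K + 5)) ^ 2 * ((Y : ℝ) * r ^ 2) := by ring
    refine htriv.trans (h4.trans (mul_le_mul_of_nonneg_right ?_ hQ.le))
    rw [hA]
    linarith
  have ht1 : (1 : ℝ) ≤ t := by exact_mod_cast (by omega : 1 ≤ t)
  have hK0 : (0 : ℝ) ≤ K := Nat.cast_nonneg _
  have hK5 : (1 : ℝ) ≤ K + 5 := by linarith
  by_cases hYt : Y < 2 ^ t
  · apply hsmall
    have h1 : Real.log Y ≤ t * Real.log 2 := by
      rw [← Real.log_pow]
      refine Real.log_le_log hY0 ?_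
      exact_mod_cast hYt.le
    have h2 : Real.log 2 ≤ 1 := by
      have := Real.log_two_lt_d9
      linarith
    calc Real.log Y ≤ t * Real.log 2 := h1
      _ ≤ t * 1 := mul_le_mul_of_nonneg_left h2 (by linarith)
      _ ≤ t * ((K + 5) * (1 + ll Y)) := by
          refine mul_le_mul_of_nonneg_left ?_ (by linarith)
          nlinarith
      _ = t * (K + 5) * (1 + ll Y) := by ring
  obtain ⟨y, hy2, hyY, hYy⟩ := sq_exists_root t Y (by omega) (not_lt.1 hYt)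
  obtain ⟨n, hn⟩ : ∃ n : ℕ, n = Nat.log 2 Y := ⟨_, rfl⟩
  obtain ⟨z, hz⟩ : ∃ z : ℕ, z = n ^ 2 + K := ⟨_, rfl⟩
  have hn0 : (0 : ℝ) ≤ n := Nat.cast_nonneg _
  -- size of z
  have hn2 : (n : ℝ) ≤ 2 * Real.log Y := by
    have h1 : 2 ^ n ≤ Y := by
      rw [hn]
      exact Nat.pow_log_le_self 2 (by omega)
    have h2 : (n : ℝ) * Real.log 2 ≤ Real.log Y := by
      rw [← Real.log_pow]
      refine Real.log_le_log (by positivity) ?_
      exact_mod_cast h1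
    have h3 := Real.log_two_gt_d9
    nlinarith
  have hn1 : Real.log Y ≤ n + 1 := by
    have h1 : Y < 2 ^ (n + 1) := by
      rw [hn]
      exact Nat.lt_pow_succ_log_self (by norm_num) Y
    have h2 : Real.log Y ≤ ((n + 1 : ℕ) : ℝ) * Real.log 2 := by
      rw [← Real.log_pow]
      refine Real.log_le_log hY0 ?_
      exact_mod_cast h1.le
    have h3 : Real.log 2 ≤ 1 := by
      have := Real.log_two_lt_d9
      linarith
    have h6 : (0 : ℝ) ≤ ((n + 1 : ℕ) : ℝ) := Nat.cast_nonneg _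
    calc Real.log Y ≤ ((n + 1 : ℕ) : ℝ) * Real.log 2 := h2
      _ ≤ ((n + 1 : ℕ) : ℝ) * 1 := mul_le_mul_of_nonneg_left h3 h6
      _ = n + 1 := by push_cast; ring
  have hzc : (z : ℝ) = (n : ℝ) ^ 2 + K := by
    rw [hz]
    push_cast
    ring
  have hK1 : (1 : ℝ) ≤ K := by exact_mod_cast (by omega : 1 ≤ K)
  have hzL : Real.log Y ^ 2 ≤ 2 * z := by
    have h1 : Real.log Y ^ 2 ≤ ((n : ℝ) + 1) ^ 2 := pow_le_pow_left₀ hL.le hn1 2
    rw [hzc]
    nlinarith [sq_nonneg ((n : ℝ) - 1)]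
  have hz1 : ((z + 1 : ℕ) : ℝ) ≤ (K + 5) * Real.log Y ^ 2 := by
    push_cast
    rw [hzc]
    have h1 : (n : ℝ) ^ 2 ≤ (2 * Real.log Y) ^ 2 := pow_le_pow_left₀ hn0 hn2 2
    have h2 : 1 ≤ Real.log Y ^ 2 := one_le_pow₀ hY1.le
    nlinarith
  have hzpos : (0 : ℝ) < ((z + 1 : ℕ) : ℝ) := by positivity
  have hz2 : Real.log ((z + 1 : ℕ) : ℝ) ≤ (K + 5) * (1 + ll Y) := by
    have h1 := Real.log_le_log hzpos hz1
    rw [Real.log_mul (by linarith) (by positivity), Real.log_pow] at h1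
    have h2 : Real.log ((K : ℝ) + 5) ≤ K + 5 := by
      have := Real.log_le_sub_one_of_pos (show (0 : ℝ) < K + 5 by linarith)
      linarith
    have h3 : Real.log (Real.log Y) = ll Y := rfl
    rw [h3] at h1
    push_cast at h1
    have h4 : 2 * ll Y ≤ (K + 5) * ll Y := by nlinarith
    push_cast
    calc Real.log ((z : ℝ) + 1) ≤ Real.log ((K : ℝ) + 5) + 2 * ll Y := h1
      _ ≤ (K + 5) + (K + 5) * ll Y := add_le_add h2 h4
      _ = _ := by ring
  by_cases hyz : y < z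
  · apply hsmall
    have h1 : Y ≤ (z + 1) ^ t := hYy.le.trans (Nat.pow_le_pow_left (by omega) t)
    have h2 : Real.log Y ≤ t * Real.log ((z + 1 : ℕ) : ℝ) := by
      rw [← Real.log_pow]
      refine Real.log_le_log hY0 ?_
      exact_mod_cast h1
    calc Real.log Y ≤ t * Real.log ((z + 1 : ℕ) : ℝ) := h2
      _ ≤ t * ((K + 5) * (1 + ll Y)) := mul_le_mul_of_nonneg_left hz2 (by linarith)
      _ = _ := by ring
  have hzy : z ≤ y := not_lt.1 hyz
  -- the two parts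
  obtain ⟨P, hP⟩ : ∃ P : ℤ → Prop, ∀ m, P m ↔ ∀ l ∈ pr (z + 1) (y + 1), ¬ (l : ℤ) ∣ h.eval m :=
    ⟨_, fun _ => Iff.rfl⟩
  set T1 := S.filter P with hT1
  set T2 := S.filter (fun m : ℤ => ¬ P m) with hT2
  have hsplit : S.card = T1.card + T2.card := (card_filter_add_card_filter_not _).symm
  have hysq : y ^ 2 ≤ Y := (Nat.pow_le_pow_right (by omega) (by omega : 2 ≤ t)).trans hyY
  have hKz : K ≤ z := by
    rw [hz]
    exact Nat.le_add_left _ _
  have hc1 : ∀ f : ℤ[X], Cop B f 1 := by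
    intro f l hl _ m _ h2
    rw [eval_one] at h2
    exact (Nat.prime_iff_prime_int.1 hl).not_isUnit (isUnit_of_dvd_one h2)
  -- part 1
  have hpart1 : (T1.card : ℝ) ≤ Cs * Real.exp (C0 + Cw) * (t * (K + 5)) ^ 2 * ((Y : ℝ) * r ^ 2) := by
    have h1 := hsv B h0 h 1 hc (hc1 h0) (hc1 h) Y y 1 M 0 hy2 one_pos (by
        rw [one_mul]
        exact (Nat.pow_le_pow_right (by omega) (by omega : s ≤ t)).trans hyY)
      (pr (z + 1) (y + 1)) (pr (z + 1) (y + 1)) ∅ (fun l hl => by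
        rw [mem_pr] at hl ⊢
        exact ⟨⟨by omega, hl.1.2⟩, hl.2⟩) (fun l hl => by
        rw [mem_pr] at hl ⊢
        exact ⟨⟨by omega, hl.1.2⟩, hl.2⟩) (empty_subset _) (fun l hl => by
        rw [union_empty, union_self, mem_pr] at hl
        refine ⟨by omega, by omega, ?_, ?_⟩
        · intro h2
          exact hl.2.one_lt.ne' (Nat.dvd_one.1 h2)
        · have h3 : rt 1 l = ∅ := by
            rw [rt, filter_eq_empty_iff]
            intro r _ h4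
            rw [eval_one] at h4
            exact (Nat.prime_iff_prime_int.1 hl.2).not_isUnit (isUnit_of_dvd_one h4)
          rw [h3, card_empty, add_zero]
          exact add_le_add (hw0.up l hl.2 (by omega)) (hw.up l hl.2 (by omega))) T1 (fun m hm => by
        rw [hT1, mem_filter] at hm
        refine ⟨(hS m hm.1).1, (hS m hm.1).2, ?_, ?_, (hP m).1 hm.2, fun l hl => absurd hl (notMem_empty l)⟩
        · exact ⟨m - 0, by push_cast; ring⟩
        · intro l hl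
          rw [mem_pr] at hl
          refine hS0 m hm.1 l hl.2 ?_
          exact (Nat.pow_le_pow_left (by omega : l ≤ y) 2).trans hysq)
    rw [sum_empty, sub_zero, Nat.cast_one, div_one] at h1
    have hgen : ∀ (f : ℤ[X]) (Bf Df : ℕ) (Cf : ℝ) (wf : ℕ → ℝ), Wt f Bf Df Cf wf → Bf < K →
        ll (y + 1) - ll (z + 1) - Cf ≤ ∑ l ∈ pr (z + 1) (y + 1), ((rt f l).card : ℝ) / l := by
      intro f Bf Df Cf wf hwf hBf
      have h3 := abs_le.1 (hwf.me (z + 1) (y + 1) (by omega) (by omega))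
      have h4 : ∑ l ∈ pr (z + 1) (y + 1), wf l / l ≤
          ∑ l ∈ pr (z + 1) (y + 1), ((rt f l).card : ℝ) / l := by
        refine sum_le_sum fun l hl => ?_
        rw [mem_pr] at hl
        exact div_le_div_of_nonneg_right (hwf.lo l hl.2 (by omega)) (Nat.cast_nonneg _)
      linarith [h3.1]
    have h2a := hgen h0 B00 D0 C0 w0 hw0 (by omega)
    have h2b := hgen h B0 D Cw w hw (by omega)
    have hz0 : 0 < Real.log ((z + 1 : ℕ) : ℝ) := Real.log_pos (by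
      exact_mod_cast (by omega : 1 < z + 1))
    have hy0 : 0 < Real.log ((y + 1 : ℕ) : ℝ) := Real.log_pos (by
      exact_mod_cast (by omega : 1 < y + 1))
    have h3 : Real.exp (-(∑ l ∈ pr (z + 1) (y + 1), ((rt h0 l).card : ℝ) / l) -
        ∑ l ∈ pr (z + 1) (y + 1), ((rt h l).card : ℝ) / l) ≤
        Real.exp (C0 + Cw) * (Real.log ((z + 1 : ℕ) : ℝ) / Real.log ((y + 1 : ℕ) : ℝ)) ^ 2 := by
      calc Real.exp (-(∑ l ∈ pr (z + 1) (y + 1), ((rt h0 l).card : ℝ) / l) -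
            ∑ l ∈ pr (z + 1) (y + 1), ((rt h l).card : ℝ) / l)
          ≤ Real.exp ((C0 + Cw) + ((ll (z + 1) - ll (y + 1)) + (ll (z + 1) - ll (y + 1)))) :=
            Real.exp_le_exp.2 (by linarith)
        _ = _ := by
          have e1 : Real.exp (ll (z + 1) - ll (y + 1)) =
              Real.log ((z + 1 : ℕ) : ℝ) / Real.log ((y + 1 : ℕ) : ℝ) := by
            rw [Real.exp_sub]
            unfold ll
            rw [Real.exp_log hz0, Real.exp_log hy0]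
          rw [Real.exp_add (C0 + Cw), Real.exp_add (ll (z + 1) - ll (y + 1)), e1]
          ring
    have h4 : Real.log Y ≤ t * Real.log ((y + 1 : ℕ) : ℝ) := by
      rw [← Real.log_pow]
      refine Real.log_le_log hY0 ?_
      exact_mod_cast hYy.le
    have h5 : Real.log ((z + 1 : ℕ) : ℝ) / Real.log ((y + 1 : ℕ) : ℝ) ≤ t * (K + 5) * r := by
      rw [hr, ← mul_div_assoc, div_le_div_iff₀ hy0 hL]
      calc Real.log ((z + 1 : ℕ) : ℝ) * Real.log Y
          ≤ ((K + 5) * (1 + ll Y)) * (t * Real.log ((y + 1 : ℕ) : ℝ)) :=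
            mul_le_mul hz2 h4 hL.le (by positivity)
        _ = _ := by ring
    have h6 : (Real.log ((z + 1 : ℕ) : ℝ) / Real.log ((y + 1 : ℕ) : ℝ)) ^ 2 ≤ (t * (K + 5) * r) ^ 2 :=
      pow_le_pow_left₀ (by positivity) h5 2
    calc (T1.card : ℝ) ≤ Cs * Y * Real.exp (-(∑ l ∈ pr (z + 1) (y + 1), ((rt h0 l).card : ℝ) / l) -
          ∑ l ∈ pr (z + 1) (y + 1), ((rt h l).card : ℝ) / l) := h1
      _ ≤ Cs * Y * (Real.exp (C0 + Cw) * (t * (K + 5) * r) ^ 2) := by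
          refine mul_le_mul_of_nonneg_left (h3.trans ?_) (by positivity)
          exact mul_le_mul_of_nonneg_left h6 (Real.exp_pos _).le
      _ = _ := by ring
  -- part 2
  have hpart2 : (T2.card : ℝ) ≤ 18 * D * ((Y : ℝ) * r ^ 2) := by
    have h1 : T2 ⊆ (pr (z + 1) (y + 1)).biUnion fun l =>
        (Finset.Ioc M (M + Y)).filter fun m : ℤ => (l : ℤ) ^ 2 ∣ h.eval m := by
      intro m hm
      rw [hT2, mem_filter, hP] at hm
      obtain ⟨hm1, hm2⟩ := hm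
      push Not at hm2
      obtain ⟨l, hl, hlm⟩ := hm2
      rw [mem_biUnion]
      refine ⟨l, hl, mem_filter.2 ⟨mem_Ioc.2 (hS m hm1), ?_⟩⟩
      rw [mem_pr] at hl
      exact hSp m hm1 l hl.2 (by omega) hlm
    have h2 : (T2.card : ℝ) ≤ ∑ l ∈ pr (z + 1) (y + 1), (D * ((Y : ℝ) / (l : ℝ) ^ 2 + 1)) := by
      calc (T2.card : ℝ) ≤ (((pr (z + 1) (y + 1)).biUnion fun l =>
            (Finset.Ioc M (M + Y)).filter fun m : ℤ => (l : ℤ) ^ 2 ∣ h.eval m).card : ℝ) := by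
            exact_mod_cast card_le_card h1
        _ ≤ ((∑ l ∈ pr (z + 1) (y + 1),
            ((Finset.Ioc M (M + Y)).filter fun m : ℤ => (l : ℤ) ^ 2 ∣ h.eval m).card : ℕ) : ℝ) := by
            exact_mod_cast card_biUnion_le
        _ = ∑ l ∈ pr (z + 1) (y + 1),
            (((Finset.Ioc M (M + Y)).filter fun m : ℤ => (l : ℤ) ^ 2 ∣ h.eval m).card : ℝ) := by
            push_cast
            rfl
        _ ≤ _ := by
            refine sum_le_sum fun l hl => ?_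
            rw [mem_pr] at hl
            exact sq_count h l hl.2 D (hw.up l hl.2 (by omega))
              (fun a ha => hB1 l hl.2 (by omega) a ha) M Y
    have hzne : z ≠ 0 := by omega
    have hz0 : (0 : ℝ) < z := by exact_mod_cast Nat.pos_of_ne_zero hzne
    have h3 : ∑ l ∈ pr (z + 1) (y + 1), (((l : ℝ)) ^ 2)⁻¹ ≤ (z : ℝ)⁻¹ := by
      calc ∑ l ∈ pr (z + 1) (y + 1), (((l : ℝ)) ^ 2)⁻¹ ≤ ∑ l ∈ Finset.Ioc z y, (((l : ℝ)) ^ 2)⁻¹ := by
            refine sum_le_sum_of_subset_of_nonneg (fun l hl => ?_) (fun l _ _ => by positivity)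
            rw [mem_pr] at hl
            rw [mem_Ioc]
            omega
        _ ≤ (z : ℝ)⁻¹ - (y : ℝ)⁻¹ := sum_Ioc_inv_sq_le_sub hzne hzy
        _ ≤ (z : ℝ)⁻¹ := by
            have : (0 : ℝ) ≤ (y : ℝ)⁻¹ := by positivity
            linarith
    have h4 : ((pr (z + 1) (y + 1)).card : ℝ) ≤ y := by
      have h5 : pr (z + 1) (y + 1) ⊆ Finset.Ioc 0 y := by
        intro l hl
        rw [mem_pr] at hl
        rw [mem_Ioc]
        omega
      have h6 := card_le_card h5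
      rw [Nat.card_Ioc, Nat.sub_zero] at h6
      exact_mod_cast h6
    have h5 : ∑ l ∈ pr (z + 1) (y + 1), (D * ((Y : ℝ) / (l : ℝ) ^ 2 + 1)) =
        D * (Y * ∑ l ∈ pr (z + 1) (y + 1), (((l : ℝ)) ^ 2)⁻¹ + (pr (z + 1) (y + 1)).card) := by
      rw [← mul_sum, sum_add_distrib, mul_sum]
      simp only [div_eq_mul_inv, sum_const, nsmul_eq_mul, mul_one]
    have h6 : (Y : ℝ) * (z : ℝ)⁻¹ ≤ 2 * (Y / Real.log Y ^ 2) := by
      rw [← div_eq_mul_inv, ← mul_div_assoc, div_le_div_iff₀ hz0 (by positivity)]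
      calc (Y : ℝ) * Real.log Y ^ 2 ≤ Y * (2 * z) := mul_le_mul_of_nonneg_left hzL hY0.le
        _ = 2 * Y * z := by ring
    have h7 := sq_log_rt hysq hY
    calc (T2.card : ℝ) ≤ _ := h2
      _ = _ := h5
      _ ≤ D * (Y * (z : ℝ)⁻¹ + y) := by
          refine mul_le_mul_of_nonneg_left (add_le_add ?_ h4) hD0
          exact mul_le_mul_of_nonneg_left h3 hY0.le
      _ ≤ D * (18 * (Y / Real.log Y ^ 2)) := by
          refine mul_le_mul_of_nonneg_left ?_ hD0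
          linarith
      _ ≤ D * (18 * ((Y : ℝ) * r ^ 2)) := by
          refine mul_le_mul_of_nonneg_left ?_ hD0
          linarith
      _ = _ := by ring
  have hfin : (S.card : ℝ) = T1.card + T2.card := by exact_mod_cast hsplit
  have hQ2 : 0 ≤ (t * (K + 5)) ^ 2 * ((Y : ℝ) * r ^ 2) := by positivity
  calc (S.card : ℝ) = T1.card + T2.card := hfin
    _ ≤ Cs * Real.exp (C0 + Cw) * (t * (K + 5)) ^ 2 * ((Y : ℝ) * r ^ 2) + 18 * D * ((Y : ℝ) * r ^ 2) :=
        add_le_add hpart1 hpart2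
    _ ≤ A * ((Y : ℝ) * r ^ 2) := by
        rw [hA]
        linarith

end Pool.Agent.H37.PP
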